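import Mathlib
import Pool.Agent.H819.NC.Pull
import Pool.Agent.H819.PU.Off

/-!
# Pull-back of smooth forms by maps which are smooth off a set
-/

set_option autoImplicit false

open Set Filter Topology MeasureTheory Metric
open scoped Manifold ContDiff ENNReal NNReal

noncomputable section

namespace Pool.Agent.H819.MD

open Pool.Agent.Y501.SY
open Pool.Agent.H819 Pool.Agent.H819.NC Pool.Agent.H819.NC.H663

variable {d m : ℕ} {X Y : Type} [TopologicalSpace X] [ChartedSpace (E d) X]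
  [IsManifold (𝓡 d) ∞ X] [TopologicalSpace Y] [ChartedSpace (E m) Y] [IsManifold (𝓡 m) ∞ Y]

/-- local description of the pull-back in a chart, for all forms at the same time -/
theorem keyOff {S : Set X} {f : X → Y} (hf : ∀ x, x ∉ S → ContMDiffAt (𝓡 d) (𝓡 m) ∞ f x)
    (U : Set (E d)) (φ : E d → X) (hU : IsOpen U) (hφ : ContMDiffOn (𝓡 d) (𝓡 d) ∞ φ U)
    (hoff : ∀ p ∈ U, φ p ∉ S) (p₀ : E d) (hp₀ : p₀ ∈ U) :
    ∃ (T : Set (E m)) (χ : E m → Y) (ψ : E d → E m),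
      IsOpen T ∧ ContMDiffOn (𝓡 m) (𝓡 m) ∞ χ T ∧ ψ p₀ ∈ T ∧ ContDiffAt ℝ ∞ ψ p₀ ∧
      ∀ (j : ℕ) (σ : Form m Y j), pb φ (pullF (m := d) f σ) =ᶠ[𝓝 p₀]
          fun p => (pb χ σ (ψ p)).compContinuousLinearMap (fderiv ℝ ψ p) := by
  obtain ⟨c, hc⟩ : ∃ c, c = chartAt (E m) (f (φ p₀)) := ⟨_, rfl⟩
  have hF : ContMDiffOn (𝓡 d) (𝓡 m) ∞ (f ∘ φ) U := fun p hp =>
    (hf _ (hoff p hp)).comp_contMDiffWithinAt p (hφ p hp)
  have hU' : IsOpen (U ∩ (f ∘ φ) ⁻¹' c.source) :=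
    hF.continuousOn.isOpen_inter_preimage hU c.open_source
  have hp₀' : p₀ ∈ U ∩ (f ∘ φ) ⁻¹' c.source := by
    refine ⟨hp₀, ?_⟩
    rw [hc]
    exact mem_chart_source (E m) (f (φ p₀))
  have hcs : ContMDiffOn (𝓡 m) (𝓡 m) ∞ c c.source := by
    rw [hc]
    exact contMDiffOn_chart
  have hct : ContMDiffOn (𝓡 m) (𝓡 m) ∞ c.symm c.target := by
    rw [hc]
    exact contMDiffOn_chart_symm
  have hψm : ContMDiffOn (𝓡 d) (𝓡 m) ∞ (c ∘ (f ∘ φ)) (U ∩ (f ∘ φ) ⁻¹' c.source) :=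
    hcs.comp (hF.mono inter_subset_left) fun p hp => hp.2
  have hψ : ContDiffOn ℝ ∞ (c ∘ (f ∘ φ)) (U ∩ (f ∘ φ) ⁻¹' c.source) :=
    contMDiffOn_iff_contDiffOn.1 hψm
  have hmaps : ∀ p ∈ U ∩ (f ∘ φ) ⁻¹' c.source, (c ∘ (f ∘ φ)) p ∈ c.target := fun p hp =>
    c.map_source hp.2
  refine ⟨c.target, c.symm, c ∘ (f ∘ φ), c.open_target, hct, hmaps p₀ hp₀',
    hψ.contDiffAt (hU'.mem_nhds hp₀'), ?_⟩
  intro j σ
  filter_upwards [hU'.mem_nhds hp₀'] with p hp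
  have hφp : MDifferentiableAt (𝓡 d) (𝓡 d) φ p :=
    ((hφ p hp.1).contMDiffAt (hU.mem_nhds hp.1)).mdifferentiableAt (by simp)
  have hfp : MDifferentiableAt (𝓡 d) (𝓡 m) f (φ p) :=
    (hf (φ p) (hoff p hp.1)).mdifferentiableAt (by simp)
  have hψp : MDifferentiableAt (𝓡 d) (𝓡 m) (c ∘ (f ∘ φ)) p :=
    ((hψm p hp).contMDiffAt (hU'.mem_nhds hp)).mdifferentiableAt (by simp)
  have hcp : MDifferentiableAt (𝓡 m) (𝓡 m) c.symm ((c ∘ (f ∘ φ)) p) :=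
    ((hct _ (hmaps p hp)).contMDiffAt (c.open_target.mem_nhds (hmaps p hp))).mdifferentiableAt
      (by simp)
  have h1 : pb φ (pullF (m := d) f σ) p = pbG σ (f ∘ φ) p := (pbG_comp σ hfp hφp).symm
  have h2 : (f ∘ φ) =ᶠ[𝓝 p] (c.symm ∘ (c ∘ (f ∘ φ))) := by
    filter_upwards [hU'.mem_nhds hp] with r hr
    exact (c.left_inv hr.2).symm
  have h3 : (pb c.symm σ ((c ∘ (f ∘ φ)) p)).compContinuousLinearMap
      (fderiv ℝ (c ∘ (f ∘ φ)) p) = pbG σ (c.symm ∘ (c ∘ (f ∘ φ))) p := by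
    rw [pbG_comp σ hcp hψp, mfderiv_eq_fderiv]
    rfl
  rw [h1, pbG_congr σ h2, h3]

theorem smoothOff_pullF {k : ℕ} {S : Set X} {f : X → Y}
    (hf : ∀ x, x ∉ S → ContMDiffAt (𝓡 d) (𝓡 m) ∞ f x) {σ : Form m Y k} (hσ : IsSmooth σ) :
    PU.SmoothOff S (pullF (m := d) f σ) := by
  intro U φ hU hφ hoff p hp
  obtain ⟨T, χ, ψ, hT, hχ, hm, hψ, h⟩ := keyOff hf U φ hU hφ hoff p hp
  have h1 : ContDiffAt ℝ ∞ (pb χ σ) (ψ p) := (hσ T χ hT hχ).contDiffAt (hT.mem_nhds hm)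
  have h3 : ContDiffAt ℝ ∞ (fun p => (pb χ σ (ψ p), fderiv ℝ ψ p)) p :=
    (h1.comp p hψ).prodMk (hψ.fderiv_right (by simp))
  have h4 : ContDiffAt ℝ ∞ (fun p => (pb χ σ (ψ p)).compContinuousLinearMap (fderiv ℝ ψ p)) p :=
    Pool.Agent.Y604.SY.contDiff_pull.contDiffAt.comp p h3
  exact (h4.congr_of_eventuallyEq (h k σ)).contDiffWithinAt

theorem closedOff_pullF {k : ℕ} {S : Set X} {f : X → Y}
    (hf : ∀ x, x ∉ S → ContMDiffAt (𝓡 d) (𝓡 m) ∞ f x) {σ : Form m Y k} (hσ : IsSmooth σ)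
    (hc : IsClosedForm σ) : PU.ClosedOff S (pullF (m := d) f σ) := by
  intro U φ hU hφ hoff p hp
  obtain ⟨T, χ, ψ, hT, hχ, hm, hψ, h⟩ := keyOff hf U φ hU hφ hoff p hp
  have h1 : ContDiffAt ℝ ∞ (pb χ σ) (ψ p) := (hσ T χ hT hχ).contDiffAt (hT.mem_nhds hm)
  rw [(h k σ).extDeriv_eq, extDeriv_pullback (r := ∞) (h1.differentiableAt (by simp)) hψ (by
    rw [minSmoothness_of_isRCLikeNormedField]
    exact WithTop.coe_le_coe.2 le_top), hc T χ hT hχ (ψ p) hm]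
  ext v
  rfl

end Pool.Agent.H819.MD
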