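import Mathlib

/-!
# Local inverses of smooth maps with invertible derivative
-/

set_option autoImplicit false

open Set Filter Topology
open scoped Manifold ContDiff

noncomputable section

namespace Pool.Agent.H819.MD

variable {V : Type} [NormedAddCommGroup V] [NormedSpace ℝ V] [CompleteSpace V]
  {X : Type} [TopologicalSpace X] [ChartedSpace V X] [IsManifold 𝓘(ℝ, V) ∞ X]
  {Z : Type} [TopologicalSpace Z] [ChartedSpace V Z] [IsManifold 𝓘(ℝ, V) ∞ Z]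

theorem exists_local_inverse {f : Z → X} (hf : ContMDiff 𝓘(ℝ, V) 𝓘(ℝ, V) ∞ f) {z : Z}
    (hb : Function.Bijective (mfderiv 𝓘(ℝ, V) 𝓘(ℝ, V) f z)) :
    ∃ h : X → Z, ContMDiffAt 𝓘(ℝ, V) 𝓘(ℝ, V) ∞ h (f z) ∧ ∀ᶠ x in 𝓝 (f z), f (h x) = x := by
  obtain ⟨e, he⟩ : ∃ e, e = chartAt V z := ⟨_, rfl⟩
  obtain ⟨c, hc⟩ : ∃ c, c = chartAt V (f z) := ⟨_, rfl⟩
  have hz : z ∈ e.source := by
    rw [he]
    exact mem_chart_source V z
  have hfz : f z ∈ c.source := by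
    rw [hc]
    exact mem_chart_source V (f z)
  have he0 : e.symm (e z) = z := e.left_inv hz
  have hed : e.MDifferentiable 𝓘(ℝ, V) 𝓘(ℝ, V) := by
    rw [he]
    exact mdifferentiable_chart z
  have hcd : c.MDifferentiable 𝓘(ℝ, V) 𝓘(ℝ, V) := by
    rw [hc]
    exact mdifferentiable_chart (f z)
  have hesm : ContMDiffAt 𝓘(ℝ, V) 𝓘(ℝ, V) ∞ e.symm (e z) := by
    have h1 : ContMDiffOn 𝓘(ℝ, V) 𝓘(ℝ, V) ∞ e.symm e.target := by
      rw [he]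
      exact contMDiffOn_chart_symm
    exact h1.contMDiffAt (e.open_target.mem_nhds (e.map_source hz))
  have hcsm : ContMDiffAt 𝓘(ℝ, V) 𝓘(ℝ, V) ∞ c (f z) := by
    have h1 : ContMDiffOn 𝓘(ℝ, V) 𝓘(ℝ, V) ∞ c c.source := by
      rw [hc]
      exact contMDiffOn_chart
    exact h1.contMDiffAt (c.open_source.mem_nhds hfz)
  have h1 : ContMDiffAt 𝓘(ℝ, V) 𝓘(ℝ, V) ∞ (f ∘ e.symm) (e z) := (hf _).comp (e z) hesm
  have hcsm' : ContMDiffAt 𝓘(ℝ, V) 𝓘(ℝ, V) ∞ c ((f ∘ e.symm) (e z)) := by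
    show ContMDiffAt 𝓘(ℝ, V) 𝓘(ℝ, V) ∞ c (f (e.symm (e z)))
    rw [he0]
    exact hcsm
  have h2 : ContMDiffAt 𝓘(ℝ, V) 𝓘(ℝ, V) ∞ (c ∘ (f ∘ e.symm)) (e z) := hcsm'.comp (e z) h1
  have hF : ContDiffAt ℝ ∞ (c ∘ (f ∘ e.symm)) (e z) := contMDiffAt_iff_contDiffAt.1 h2
  have b1 : Function.Bijective (mfderiv 𝓘(ℝ, V) 𝓘(ℝ, V) e.symm (e z)) :=
    hed.symm.mfderiv_bijective (e.map_source hz)
  have b2 : Function.Bijective (mfderiv 𝓘(ℝ, V) 𝓘(ℝ, V) f (e.symm (e z))) := by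
    rw [he0]
    exact hb
  have b3 : Function.Bijective (mfderiv 𝓘(ℝ, V) 𝓘(ℝ, V) c (f (e.symm (e z)))) := by
    rw [he0]
    exact hcd.mfderiv_bijective hfz
  have hd : fderiv ℝ (c ∘ (f ∘ e.symm)) (e z) =
      (mfderiv 𝓘(ℝ, V) 𝓘(ℝ, V) c (f (e.symm (e z)))).comp
        ((mfderiv 𝓘(ℝ, V) 𝓘(ℝ, V) f (e.symm (e z))).comp
          (mfderiv 𝓘(ℝ, V) 𝓘(ℝ, V) e.symm (e z))) := by
    rw [← mfderiv_eq_fderiv, mfderiv_comp (I' := 𝓘(ℝ, V)) (e z)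
      (hcsm'.mdifferentiableAt (by simp)) (h1.mdifferentiableAt (by simp)),
      mfderiv_comp (I' := 𝓘(ℝ, V)) (e z) ((hf _).mdifferentiableAt (by simp))
      (hesm.mdifferentiableAt (by simp))]
    rfl
  have hbij : Function.Bijective (fderiv ℝ (c ∘ (f ∘ e.symm)) (e z)) := by
    rw [hd]
    exact b3.comp (b2.comp b1)
  let L : V ≃L[ℝ] V := ContinuousLinearEquiv.ofBijective (fderiv ℝ (c ∘ (f ∘ e.symm)) (e z))
    (LinearMap.ker_eq_bot.2 hbij.1) (LinearMap.range_eq_top.2 hbij.2)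
  have hL : HasFDerivAt (c ∘ (f ∘ e.symm)) (L : V →L[ℝ] V) (e z) :=
    (hF.differentiableAt (by simp)).hasFDerivAt
  let H := hF.toOpenPartialHomeomorph (c ∘ (f ∘ e.symm)) hL (by simp)
  have hHc : ∀ p, H p = c (f (e.symm p)) := fun p => rfl
  have hsrc : e z ∈ H.source := hF.mem_toOpenPartialHomeomorph_source hL (by simp)
  have hval : H (e z) = c (f z) := by
    rw [hHc, he0]
  have htgt : c (f z) ∈ H.target := by
    rw [← hval]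
    exact H.map_source hsrc
  have hsymm : H.symm (c (f z)) = e z := by
    rw [← hval]
    exact H.left_inv hsrc
  have hHs : ContDiffAt ℝ ∞ H.symm (c (f z)) := by
    refine H.contDiffAt_symm (f₀' := L) htgt ?_ ?_
    · rw [hsymm]
      exact hL
    · rw [hsymm]
      exact hF
  have h3 : ContMDiffAt 𝓘(ℝ, V) 𝓘(ℝ, V) ∞ (H.symm ∘ c) (f z) :=
    (contMDiffAt_iff_contDiffAt.2 hHs).comp (f z) hcsm
  have hesm' : ContMDiffAt 𝓘(ℝ, V) 𝓘(ℝ, V) ∞ e.symm ((H.symm ∘ c) (f z)) := by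
    show ContMDiffAt 𝓘(ℝ, V) 𝓘(ℝ, V) ∞ e.symm (H.symm (c (f z)))
    rw [hsymm]
    exact hesm
  have h4 : ContMDiffAt 𝓘(ℝ, V) 𝓘(ℝ, V) ∞ (e.symm ∘ (H.symm ∘ c)) (f z) :=
    hesm'.comp (f z) h3
  refine ⟨e.symm ∘ (H.symm ∘ c), h4, ?_⟩
  have h5 : ContinuousAt (f ∘ (e.symm ∘ (H.symm ∘ c))) (f z) :=
    ContinuousAt.comp (hf.continuous.continuousAt) h4.continuousAt
  have h6 : (f ∘ (e.symm ∘ (H.symm ∘ c))) (f z) = f z := by
    show f (e.symm (H.symm (c (f z)))) = f z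
    rw [hsymm, he0]
  have h7 : ∀ᶠ x in 𝓝 (f z), (f ∘ (e.symm ∘ (H.symm ∘ c))) x ∈ c.source := by
    refine h5.eventually ?_
    rw [h6]
    exact c.open_source.mem_nhds hfz
  have h8 : ∀ᶠ x in 𝓝 (f z), c x ∈ H.target :=
    hcsm.continuousAt.eventually (H.open_target.mem_nhds htgt)
  filter_upwards [h7, h8, c.open_source.mem_nhds hfz] with x g7 g8 g9
  refine c.injOn g7 g9 ?_
  show H (H.symm (c x)) = c x
  exact H.right_inv g8

end Pool.Agent.H819.MD
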