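import Mathlib
import Pool.Agent.H819.PU.Pub
import Pool.Agent.H819.BC.Pub
import Pool.Agent.H819.RN.Pub

/-!
# Pseudoholomorphic modifications: definitions
-/

set_option autoImplicit false

open Set Filter Topology MeasureTheory Metric
open scoped Manifold ContDiff ENNReal NNReal

noncomputable section

namespace Pool.Agent.H819.MDP

open Pool.Agent.Y501.SYP Pool.Agent.H819.LGP Pool.Agent.H819.LNP Pool.Agent.H819.HNP
open Pool.Agent.H819.EMP Pool.Agent.H819.BCP Pool.Agent.H819.PUP Pool.Agent.H819.RNP
open Pool.Agent.H819.NCP (IsSimple NumericalChain)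

variable {V : Type} [NormedAddCommGroup V] [NormedSpace ℝ V]
  {X : Type} [TopologicalSpace X] [ChartedSpace V X]
  {Z : Type} [TopologicalSpace Z] [ChartedSpace V Z]

/-- `f : (Z, I) → (X, J)` is a pseudoholomorphic modification with centre `S`: it is smooth and
pseudoholomorphic, each point outside `S` has exactly one preimage, and the derivative of `f` is
bijective at this preimage.  There is no condition on the fibres over the points of `S`. -/
structure IsModification (f : Z → X) (S : Set X) (I : End V Z) (J : End V X) : Prop where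
  smooth : ContMDiff 𝓘(ℝ, V) 𝓘(ℝ, V) ∞ f
  hol : ∀ (z : Z) (v : TangentSpace 𝓘(ℝ, V) z), der (V := V) f z (I z v) = J (f z) (der f z v)
  bij : ∀ x, x ∉ S → ∃! z, f z = x
  inv : ∀ z, f z ∉ S → Function.Bijective (der (V := V) f z)

/-- `g` is a smooth pseudoholomorphic immersion of the complement of `S` in `(X, J)` to `(Y, K)`.  The
dimension of `Y` may be larger than that of `X`, and the values of `g` on `S` do not matter. -/
structure ImmersesOff {W : Type} [NormedAddCommGroup W] [NormedSpace ℝ W] {Y : Type}
    [TopologicalSpace Y] [ChartedSpace W Y] (S : Set X) (g : X → Y) (J : End V X)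
    (K : End W Y) : Prop where
  smooth : ∀ x, x ∉ S → ContMDiffAt 𝓘(ℝ, V) 𝓘(ℝ, W) ∞ g x
  hol : ∀ x, x ∉ S → ∀ v : TangentSpace 𝓘(ℝ, V) x,
    NCP.der (V := W) (W := V) g x (J x v) = K (g x) (NCP.der (V := W) (W := V) g x v)
  inj : ∀ x, x ∉ S → Function.Injective (NCP.der (V := W) (W := V) g x)

/-- `τ` is a symplectic form which tames `I`, and outside `f⁻¹(S)` it represents the class of
`f^* σ₀`: the form `τ - f^* σ₀` is the exterior derivative of a smooth one-form on the complement of
`f⁻¹(S)`. -/
def LiftsClass (f : Z → X) (S : Set X) (σ₀ : Form V X 2) (I : End V Z) (τ : Form V Z 2) : Prop :=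
  IsTamingSymplectic τ I ∧ InClassOff (f ⁻¹' S) (pull f σ₀) τ

/-- the fibres of `f` over the points of `S` are numerically good with respect to the closed form `ζ`
(see `NumericallyGood`) -/
def GoodOver [MeasurableSpace V] [BorelSpace V] (f : Z → X) (S : Set X) (σ : Form V X 2)
    (I : End V Z) (ζ : Form V Z 2) : Prop :=
  IsSmooth ζ ∧ IsClosedForm ζ ∧ ∀ s ∈ S, NumericallyGood (pull f σ) ζ I (f ⁻¹' {s})

/-- `w` is the push-forward of `τ` by `f` outside `S`: `f^* w = τ` outside `f⁻¹(S)`.  The values of `w`
on `S` do not matter. -/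
def IsPush (f : Z → X) (S : Set X) (τ : Form V Z 2) (w : Form V X 2) : Prop :=
  ∀ z, f z ∉ S → pull f w z = τ z

/-- The class of the smooth closed form `σ₀` is the push-forward of `τ`: the push-forward of the form
`τ`, which is defined outside `S`, is locally integrable and represents the class of `σ₀` in the sense
of distributions. -/
def PushClass [MeasurableSpace V] (μ : Measure V) (f : Z → X) (S : Set X) (τ : Form V Z 2)
    (σ₀ : Form V X 2) : Prop :=
  IsSmooth σ₀ ∧ IsClosedForm σ₀ ∧ ∃ w, IsPush f S τ w ∧ Represents μ σ₀ w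

/-- `S` is a set of zero two-dimensional Hausdorff measure, or it is totally disconnected and `J` is of
class `C^1` at its points. -/
def Small [MeasurableSpace V] [BorelSpace V] (S : Set X) (J : End V X) : Prop :=
  HausdorffNull (V := V) 2 S ∨ (IsTotallyDisconnected S ∧ ∀ p ∈ S, C1At J p)

/-- Up to a set of zero two-dimensional Hausdorff measure, the set `S` is covered by a closed totally
disconnected set, at the points of which `J` is of class `C^1`, and by the last set of a chain with
positive degrees with respect to the class of `σ₀` (see `NumericalChain`). -/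
def ChainCovers [MeasurableSpace V] [BorelSpace V] (S : Set X) (σ₀ : Form V X 2) (J : End V X) :
    Prop :=
  ∃ S₀ : Set X, IsClosed S₀ ∧ IsTotallyDisconnected S₀ ∧ (∀ p ∈ S₀, C1At J p) ∧
    ∃ (n : ℕ) (C : ℕ → Set X), NumericalChain σ₀ J n C ∧
      HausdorffNull (V := V) 2 {x | x ∈ S ∧ x ∉ S₀ ∧ x ∉ C n}

/-- Off the set `B`, the set `C` is an embedded `J`-holomorphic submanifold (possibly with components of
different dimensions), and `J` is smooth near the points of `C \ B`: near each point `p` of `C \ B` the set
`C` is, in the chart at `p`, the zero set of a smooth submersion `h`, and `J` preserves the kernel of `dh`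
at the points of `C`. -/
def IsStratum (J : End V X) (B C : Set X) : Prop :=
  ∀ p ∈ C, p ∉ B → ∃ (k : ℕ) (h : V → EuclideanSpace ℝ (Fin k)),
    Function.Surjective (fderiv ℝ h (chartAt V p p)) ∧
    ∀ᶠ z in 𝓝 (chartAt V p p), ContDiffAt ℝ ∞ (op J p) z ∧ ContDiffAt ℝ ∞ h z ∧
      ((chartAt V p).symm z ∈ C ↔ h z = 0) ∧
      (h z = 0 → ∀ u : V, fderiv ℝ h z u = 0 → fderiv ℝ h z (op J p z u) = 0)

/-- A chain `C 0 ⊆ C 1 ⊆ … ⊆ C n` of closed sets such that `C 0` is the union of a finite set and of the
image of a closed Riemann surface, not necessarily connected and possibly empty, under a simple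
pseudoholomorphic map, and for each `i < n` the set `C (i + 1) \ C i` is an embedded `J`-holomorphic
submanifold of `X \ C i`; and `J` is smooth near `C n`. -/
structure StrataChain (J : End V X) (n : ℕ) (C : ℕ → Set X) : Prop where
  smooth : ∀ p ∈ C 0, ∀ᶠ z in 𝓝 (chartAt V p p), ContDiffAt ℝ ∞ (op J p) z
  curve : ∃ (S : Type) (_ : TopologicalSpace S) (_ : ChartedSpace (ES 2) S)
    (_ : IsManifold 𝓘(ℝ, ES 2) ∞ S) (_ : CompactSpace S) (_ : T2Space S)
    (j : End (ES 2) S) (u : S → X) (P : Set X), IsAlmostComplex j ∧
      IsSimple (V := V) (W := ES 2) J j u P ∧ C 0 = range u ∪ P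
  closed : ∀ i, i ≤ n → IsClosed (C i)
  mono : ∀ i, i < n → C i ⊆ C (i + 1)
  strata : ∀ i, i < n → IsStratum J (C i) (C (i + 1))

/-- `C` is a chain of `J`-holomorphic strata, and the set `S` is contained in the union of `C n`, of a
closed totally disconnected set, at the points of which `J` is of class `C^1`, and of a set of zero
two-dimensional Hausdorff measure. -/
def CoveredBy [MeasurableSpace V] [BorelSpace V] (S : Set X) (J : End V X) (n : ℕ)
    (C : ℕ → Set X) : Prop :=
  StrataChain J n C ∧ ∃ S₀ : Set X, IsClosed S₀ ∧ IsTotallyDisconnected S₀ ∧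
    (∀ p ∈ S₀, C1At J p) ∧ HausdorffNull (V := V) 2 {x | x ∈ S ∧ x ∉ S₀ ∧ x ∉ C n}

/-- The class of `ζ` is positive on every closed `J`-holomorphic curve contained in `S`: for each simple
`J`-holomorphic map `u` of a closed Riemann surface `(C, j)` to `S`, the class of `u^* ζ` contains a
symplectic form (an area form) taming `j`. -/
def PositiveOnCurves (S : Set X) (ζ : Form V X 2) (J : End V X) : Prop :=
  ∀ (C : Type) (_ : TopologicalSpace C) (_ : ChartedSpace (ES 2) C)
    (_ : IsManifold 𝓘(ℝ, ES 2) ∞ C) (_ : CompactSpace C) (_ : T2Space C)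
    (j : End (ES 2) C) (u : C → X) (P : Set X), IsAlmostComplex j →
      IsSimple (V := V) (W := ES 2) J j u P → range u ⊆ S → TamedIn (NCP.pull u ζ) j

end Pool.Agent.H819.MDP
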