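import Mathlib
import Pool.Agent.H819.MD.Inv
import Pool.Agent.H819.MD.Pub

/-!
# Pulling back by the inverse of a modification
-/

set_option autoImplicit false

open Set Filter Topology MeasureTheory Metric
open scoped Manifold ContDiff ENNReal NNReal

noncomputable section

namespace Pool.Agent.H819.MD

open Pool.Agent.Y501.SYP Pool.Agent.H819.LGP Pool.Agent.H819.BCP Pool.Agent.H819.PUP
open Pool.Agent.H819.MDP

variable {V : Type} [NormedAddCommGroup V] [NormedSpace ℝ V]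
  {X : Type} [TopologicalSpace X] [ChartedSpace V X]
  {Z : Type} [TopologicalSpace Z] [ChartedSpace V Z]

theorem pb_congr {k : ℕ} (σ : Form V X k) {F H : V → X} {p : V} (h : F =ᶠ[𝓝 p] H) :
    pb F σ p = pb H σ p := by
  have hp : F p = H p := h.eq_of_nhds
  have hd : (mfderiv 𝓘(ℝ, V) 𝓘(ℝ, V) F p : V →L[ℝ] V) = mfderiv 𝓘(ℝ, V) 𝓘(ℝ, V) H p :=
    h.mfderiv_eq
  ext v
  show (σ (F p) : V [⋀^Fin k]→L[ℝ] ℝ)
      (fun i => (mfderiv 𝓘(ℝ, V) 𝓘(ℝ, V) F p : V →L[ℝ] V) (v i)) =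
    (σ (H p) : V [⋀^Fin k]→L[ℝ] ℝ)
      (fun i => (mfderiv 𝓘(ℝ, V) 𝓘(ℝ, V) H p : V →L[ℝ] V) (v i))
  rw [hd, hp]

theorem pb_pull {k : ℕ} (σ : Form V X k) {g : Z → X} {φ : V → Z} {p : V}
    (hg : MDifferentiableAt 𝓘(ℝ, V) 𝓘(ℝ, V) g (φ p))
    (hφ : MDifferentiableAt 𝓘(ℝ, V) 𝓘(ℝ, V) φ p) : pb φ (pull g σ) p = pb (g ∘ φ) σ p := by
  unfold pb
  rw [mfderiv_comp p hg hφ]
  rfl

/-- `g` is a smooth inverse of `f` off `S`. -/
structure InvOff (f : Z → X) (S : Set X) (g : X → Z) : Prop where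
  right : ∀ x, x ∉ S → f (g x) = x
  left : ∀ z, f z ∉ S → g (f z) = z
  smooth : ∀ x, x ∉ S → ContMDiffAt 𝓘(ℝ, V) 𝓘(ℝ, V) ∞ g x

theorem exists_invOff [CompleteSpace V] [IsManifold 𝓘(ℝ, V) ∞ X] [IsManifold 𝓘(ℝ, V) ∞ Z]
    [Nonempty Z] {f : Z → X} {S : Set X} {I : End V Z} {J : End V X} (hS : IsClosed S)
    (hf : IsModification f S I J) : ∃ g : X → Z, InvOff (V := V) f S g := by
  have hr : ∀ x, x ∉ S → f (Function.invFun f x) = x := by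
    intro x hx
    obtain ⟨z, hz, -⟩ := hf.bij x hx
    exact Function.invFun_eq ⟨z, hz⟩
  refine ⟨Function.invFun f, hr, fun z hz => ?_, fun x hx => ?_⟩
  · exact (hf.bij (f z) hz).unique (hr _ hz) rfl
  · obtain ⟨z, hz⟩ : ∃ z, z = Function.invFun f x := ⟨_, rfl⟩
    have hfz : f z = x := by
      rw [hz]
      exact hr x hx
    obtain ⟨h, h1, h2⟩ := exists_local_inverse hf.smooth (hf.inv z (by rwa [hfz]))
    rw [hfz] at h1 h2
    refine h1.congr_of_eventuallyEq ?_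
    filter_upwards [h2, hS.isOpen_compl.mem_nhds hx] with y hy hyS
    exact (hf.bij y hyS).unique (hr y hyS) hy

section

variable {f : Z → X} {S : Set X} {g : X → Z} (hg : InvOff (V := V) f S g)

include hg

theorem InvOff.param {U : Set V} {φ : V → X} (hφ : OffParam S U φ) :
    OffParam (f ⁻¹' S) U (g ∘ φ) := by
  refine ⟨⟨hφ.1.1, fun p hp => ?_⟩, fun p hp => ?_⟩
  · exact (hg.smooth _ (hφ.off p hp)).comp_contMDiffWithinAt p (hφ.1.2 p hp)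
  · show f (g (φ p)) ∉ S
    rw [hg.right _ (hφ.off p hp)]
    exact hφ.off p hp

theorem InvOff.pb_eq {k : ℕ} (σ : Form V Z k) {U : Set V} {φ : V → X} (hφ : OffParam S U φ)
    {p : V} (hp : p ∈ U) : pb φ (pull g σ) p = pb (g ∘ φ) σ p := by
  refine pb_pull σ ((hg.smooth _ (hφ.off p hp)).mdifferentiableAt (by simp)) ?_
  exact (hφ.1.2.contMDiffAt (hφ.1.1.mem_nhds hp)).mdifferentiableAt (by simp)

theorem InvOff.pb_ev {k : ℕ} (σ : Form V Z k) {U : Set V} {φ : V → X} (hφ : OffParam S U φ)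
    {p : V} (hp : p ∈ U) : pb φ (pull g σ) =ᶠ[𝓝 p] pb (g ∘ φ) σ := by
  filter_upwards [hφ.1.1.mem_nhds hp] with q hq
  exact hg.pb_eq σ hφ hq

theorem InvOff.pb_back (hf : ContMDiff 𝓘(ℝ, V) 𝓘(ℝ, V) ∞ f) {k : ℕ} (σ : Form V X k)
    {U : Set V} {φ : V → X} (hφ : OffParam S U φ) {p : V} (hp : p ∈ U) :
    pb (g ∘ φ) (pull f σ) p = pb φ σ p := by
  have h1 := hg.param hφ
  rw [pb_pull σ ((hf _).mdifferentiableAt (by simp))
    ((h1.1.2.contMDiffAt (h1.1.1.mem_nhds hp)).mdifferentiableAt (by simp))]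
  refine pb_congr σ ?_
  filter_upwards [hφ.1.1.mem_nhds hp] with q hq
  exact hg.right _ (hφ.off q hq)

theorem InvOff.smoothOff {k : ℕ} {σ : Form V Z k} (h : SmoothOff (f ⁻¹' S) σ) :
    SmoothOff S (pull g σ) := by
  intro U φ hφ
  exact (h U _ (hg.param hφ)).congr fun p hp => hg.pb_eq σ hφ hp

theorem InvOff.closedOff {σ : Form V Z 2} (h : ClosedOff (f ⁻¹' S) σ) :
    ClosedOff S (pull g σ) := by
  refine ⟨hg.smoothOff h.smooth, fun U φ hφ p hp => ?_⟩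
  rw [(hg.pb_ev σ hφ hp).extDeriv_eq]
  exact h.closed U _ (hg.param hφ) p hp

theorem InvOff.inClassOff (hf : ContMDiff 𝓘(ℝ, V) 𝓘(ℝ, V) ∞ f) {σ₀ : Form V X 2}
    {τ : Form V Z 2} (h : InClassOff (f ⁻¹' S) (pull f σ₀) τ) :
    InClassOff S σ₀ (pull g τ) := by
  obtain ⟨h1, β, h2, h3⟩ := h
  refine ⟨hg.smoothOff h1, pull g β, hg.smoothOff h2, fun U φ hφ p hp => ?_⟩
  rw [(hg.pb_ev β hφ hp).extDeriv_eq, h3 U _ (hg.param hφ) p hp]
  have e1 : pb (g ∘ φ) (subF τ (pull f σ₀)) p = pb (g ∘ φ) τ p - pb (g ∘ φ) (pull f σ₀) p := rfl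
  have e2 : pb φ (subF (pull g τ) σ₀) p = pb φ (pull g τ) p - pb φ σ₀ p := rfl
  rw [e1, e2, hg.pb_back hf σ₀ hφ hp, hg.pb_eq τ hφ hp]

end

end Pool.Agent.H819.MD
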