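import Mathlib
import Pool.Agent.H819.MD.Pull

/-!
# The pulled-back form tames the almost complex structure
-/

set_option autoImplicit false

open Set Filter Topology MeasureTheory Metric
open scoped Manifold ContDiff ENNReal NNReal

noncomputable section

namespace Pool.Agent.H819.MD

open Pool.Agent.Y501.SYP Pool.Agent.H819.LGP Pool.Agent.H819.BCP Pool.Agent.H819.PUP
open Pool.Agent.H819.MDP

variable {V : Type} [NormedAddCommGroup V] [NormedSpace ℝ V]
  {X : Type} [TopologicalSpace X] [ChartedSpace V X]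
  {Z : Type} [TopologicalSpace Z] [ChartedSpace V Z]

/-- the derivatives are inverse to each other -/
theorem InvOff.der_comp {f : Z → X} {S : Set X} {g : X → Z} (hg : InvOff (V := V) f S g)
    (hS : IsClosed S) (hf : ContMDiff 𝓘(ℝ, V) 𝓘(ℝ, V) ∞ f) {x : X} (hx : x ∉ S) (v : V) :
    (mfderiv 𝓘(ℝ, V) 𝓘(ℝ, V) f (g x) : V →L[ℝ] V)
      ((mfderiv 𝓘(ℝ, V) 𝓘(ℝ, V) g x : V →L[ℝ] V) v) = v := by
  have h1 : f ∘ g =ᶠ[𝓝 x] id := by
    filter_upwards [hS.isOpen_compl.mem_nhds hx] with y hy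
    exact hg.right y hy
  have h2 : (mfderiv 𝓘(ℝ, V) 𝓘(ℝ, V) (f ∘ g) x : V →L[ℝ] V) =
      mfderiv 𝓘(ℝ, V) 𝓘(ℝ, V) (id : X → X) x := h1.mfderiv_eq
  rw [mfderiv_comp x ((hf _).mdifferentiableAt (by simp))
    ((hg.smooth x hx).mdifferentiableAt (by simp)), mfderiv_id] at h2
  exact DFunLike.congr_fun h2 v

/-- the inverse of a modification is pseudoholomorphic -/
theorem InvOff.hol {f : Z → X} {S : Set X} {g : X → Z} (hg : InvOff (V := V) f S g)
    (hS : IsClosed S) {I : End V Z} {J : End V X} (hf : IsModification f S I J) {x : X}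
    (hx : x ∉ S) (v : TangentSpace 𝓘(ℝ, V) x) :
    der (V := V) g x (J x v) = I (g x) (der g x v) := by
  have hfg : f (g x) = x := hg.right x hx
  have hinj : Function.Injective (der (V := V) f (g x)) := (hf.inv (g x) (by rwa [hfg])).1
  have hJ : (J (f (g x)) : V →L[ℝ] V) = J x := by rw [hfg]
  refine hinj ?_
  have h1 := hf.hol (g x) (der (V := V) g x v)
  have h2 : (der (V := V) f (g x) (der (V := V) g x v) : V) = v :=
    hg.der_comp hS hf.smooth hx v
  have h3 : (der (V := V) f (g x) (der (V := V) g x (J x v)) : V) = J x v :=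
    hg.der_comp hS hf.smooth hx (J x v)
  rw [h1]
  have h4 : (J (f (g x)) (der (V := V) f (g x) (der (V := V) g x v)) : V) = J x v := by
    have h5 : ∀ w : V, (J (f (g x)) : V →L[ℝ] V) w = (J x : V →L[ℝ] V) w := fun w =>
      DFunLike.congr_fun hJ w
    refine (h5 _).trans ?_
    exact congrArg (J x : V →L[ℝ] V) h2
  exact h3.trans h4.symm

theorem pull_apply (g : X → Z) (τ : Form V Z 2) (x : X) (u v : TangentSpace 𝓘(ℝ, V) x) :
    pull g τ x ![u, v] = τ (g x) ![der (V := V) g x u, der (V := V) g x v] := by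
  have h1 : pull g τ x ![u, v] = τ (g x) (fun i =>
      der (V := V) g x ((![u, v] : Fin 2 → TangentSpace 𝓘(ℝ, V) x) i)) := rfl
  rw [h1]
  congr 1
  funext i
  fin_cases i <;> rfl

theorem InvOff.qd_eq {f : Z → X} {S : Set X} {g : X → Z} (hg : InvOff (V := V) f S g)
    (hS : IsClosed S) {I : End V Z} {J : End V X} (hf : IsModification f S I J) {x : X}
    (hx : x ∉ S) (τ : Form V Z 2) (v : TangentSpace 𝓘(ℝ, V) x) :
    qd (pull g τ) J x v = qd τ I (g x) (der g x v) := by
  unfold qd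
  rw [pull_apply, hg.hol hS hf hx]

theorem InvOff.tamesOff {f : Z → X} {S : Set X} {g : X → Z} (hg : InvOff (V := V) f S g)
    (hS : IsClosed S) {I : End V Z} {J : End V X} (hf : IsModification f S I J)
    {τ : Form V Z 2} (hτ : TamesOff (f ⁻¹' S) τ I) : TamesOff S (pull g τ) J := by
  obtain ⟨h1, C, hC⟩ := hτ
  have hmem : ∀ x, x ∉ S → g x ∉ f ⁻¹' S := by
    intro x hx
    show f (g x) ∉ S
    rwa [hg.right x hx]
  refine ⟨fun x hx v hv => ?_, C, fun x hx u v => ?_⟩
  · rw [hg.qd_eq hS hf hx]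
    refine h1 _ (hmem x hx) _ fun h0 => hv ?_
    have h2 := hg.der_comp hS hf.smooth hx v
    have h3 : (mfderiv 𝓘(ℝ, V) 𝓘(ℝ, V) g x : V →L[ℝ] V) v = 0 := h0
    rw [h3, map_zero] at h2
    exact h2.symm
  · rw [hg.qd_eq hS hf hx, hg.qd_eq hS hf hx, pull_apply]
    exact hC _ (hmem x hx) _ _

end Pool.Agent.H819.MD
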