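import Mathlib
import Pool.Agent.H819.MD.Tame
import Pool.Agent.H819.PU.Br
import Pool.Agent.H819.RN.Cor

/-!
# Taming symplectic forms and pseudoholomorphic modifications
-/

set_option autoImplicit false

open Set Filter Topology MeasureTheory Metric
open scoped Manifold ContDiff ENNReal NNReal

noncomputable section

namespace Pool.Agent.H819.MDP

open Pool.Agent.Y501 (SY.E)
open Pool.Agent.Y501.SYP hiding cs smooth_iff isD_iff closed_iff
open Pool.Agent.H819.LGP Pool.Agent.H819.LNP Pool.Agent.H819.HNP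
open Pool.Agent.H819.PUP Pool.Agent.H819.RNP
open Pool.Agent Pool.Agent.H819.MD

variable {d : ℕ} {X : Type} [TopologicalSpace X] [ChartedSpace (ES d) X]
  [IsManifold 𝓘(ℝ, ES d) ∞ X] [CompactSpace X] [T2Space X]
  {Z : Type} [TopologicalSpace Z] [ChartedSpace (ES d) Z]
  [IsManifold 𝓘(ℝ, ES d) ∞ Z] [CompactSpace Z] [T2Space Z]

attribute [local instance] Pool.Agent.H819.LGP.cs

theorem tamesOff_of {I : End (ES d) Z} (hI : IsAlmostComplex I) {τ : Form (ES d) Z 2}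
    (hτ : IsTamingSymplectic τ I) (T : Set Z) : TamesOff T τ I := by
  have hm : IsManifold (𝓡 d) ∞ Z := (inferInstance : IsManifold 𝓘(ℝ, ES d) ∞ Z)
  exact (tamesOff_iff T τ I).2 (PU.tameOff_of_smooth (d := d) (X := Z) (cont_of hI)
    ((smooth_iff τ).1 hτ.smooth) (fun x v hv => hτ.tames x v hv) T)

omit [IsManifold 𝓘(ℝ, ES d) ∞ Z] [CompactSpace Z] [T2Space Z] in
theorem closedOff_of {τ : Form (ES d) Z 2} (h1 : IsSmooth τ) (h2 : IsClosedForm τ) (T : Set Z) :
    ClosedOff T τ :=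
  ⟨fun U φ hφ => h1 U φ hφ.1, fun U φ hφ => h2 U φ hφ.1⟩

/-- descent of taming symplectic forms -/
theorem descend (hd : 4 ≤ d) {J : End (ES d) X} {I : End (ES d) Z} (hJ : IsAlmostComplex J)
    (hJ1 : C1End J) (hI : IsAlmostComplex I) {S : Set X} (hS : IsClosed S) (hSc : S.Countable)
    {f : Z → X} (hf : IsModification f S I J) :
    ((∃ τ : Form (ES d) Z 2, IsTamingSymplectic τ I) →
      ∃ σ : Form (ES d) X 2, IsTamingSymplectic σ J) ∧
    ∀ σ₀ : Form (ES d) X 2, IsSmooth σ₀ → IsClosedForm σ₀ →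
      (∃ τ : Form (ES d) Z 2, LiftsClass f S σ₀ I τ) → TamedIn σ₀ J := by
  have hcs : CompleteSpace (ES d) := (inferInstance : CompleteSpace (EuclideanSpace ℝ (Fin d)))
  obtain ⟨hth, hai⟩ := thin_of_countable (X := X) hd hS hSc
  obtain ⟨r1, r2⟩ := result_class hd hth hJ hJ1
  rcases isEmpty_or_nonempty Z with hZ | hZ
  · have hall : ∀ x, x ∈ S := by
      intro x
      by_contra hx
      obtain ⟨z, -⟩ := hf.bij x hx
      exact hZ.elim z
    have h1 : ∀ (U : Set (ES d)) (φ : ES d → X), OffParam S U φ → ∀ p, p ∉ U :=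
      fun U φ hφ p hp => hφ.off p hp (hall _)
    have h2 : ∀ {k : ℕ} (σ : Form (ES d) X k), SmoothOff S σ :=
      fun σ U φ hφ p hp => absurd hp (h1 U φ hφ p)
    have h3 : ∀ σ : Form (ES d) X 2, TamesOff S σ J :=
      fun σ => ⟨fun x hx => absurd (hall x) hx, 0, fun x hx => absurd (hall x) hx⟩
    refine ⟨fun _ => r2.2 ⟨fun _ => 0, ⟨h2 _, fun U φ hφ p hp => absurd hp (h1 U φ hφ p)⟩,
      h3 _, hai _⟩, fun σ₀ g1 g2 _ => (r1 σ₀ g1 g2).2 ⟨fun _ => 0, ⟨h2 _, fun _ => 0, h2 _,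
        fun U φ hφ p hp => absurd hp (h1 U φ hφ p)⟩, h3 _, hai _⟩⟩
  · obtain ⟨g, hg⟩ := exists_invOff (V := ES d) hS hf
    constructor
    · rintro ⟨τ, hτ⟩
      exact r2.2 ⟨_, hg.closedOff (closedOff_of hτ.smooth hτ.closed _),
        hg.tamesOff hS hf (tamesOff_of hI hτ _), hai _⟩
    · rintro σ₀ g1 g2 ⟨τ, hτ, hc⟩
      exact (r1 σ₀ g1 g2).2 ⟨_, hg.inClassOff hf.smooth hc,
        hg.tamesOff hS hf (tamesOff_of hI hτ _), hai _⟩

end Pool.Agent.H819.MDP
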