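import Mathlib
import Pool.Agent.H819.MD.Main
import Pool.Agent.H819.MD.Imm

/-!
# Immersions off a countable set, and the converse for modifications
-/

set_option autoImplicit false

open Set Filter Topology MeasureTheory Metric
open scoped Manifold ContDiff ENNReal NNReal

noncomputable section

namespace Pool.Agent.H819.MDP

open Pool.Agent.Y501 (SY.E)
open Pool.Agent.Y501.SYP hiding cs smooth_iff isD_iff closed_iff
open Pool.Agent.H819.LGP Pool.Agent.H819.LNP Pool.Agent.H819.HNP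
open Pool.Agent.H819.EMP Pool.Agent.H819.PUP Pool.Agent.H819.RNP
open Pool.Agent Pool.Agent.H819.MD

variable {d : ℕ} {X : Type} [TopologicalSpace X] [ChartedSpace (ES d) X]
  [IsManifold 𝓘(ℝ, ES d) ∞ X] [CompactSpace X] [T2Space X]

attribute [local instance] Pool.Agent.H819.LGP.cs

/-- **Immersions.** -/
theorem immersed (hd : 4 ≤ d) {J : End (ES d) X} (hJ : IsAlmostComplex J) (hJ1 : C1End J)
    {S : Set X} (hS : IsClosed S) (hSc : S.Countable) {m : ℕ} {Y : Type} [TopologicalSpace Y]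
    [ChartedSpace (ES m) Y] [IsManifold 𝓘(ℝ, ES m) ∞ Y] {K : End (ES m) Y}
    (hK : IsAlmostComplex K) {w : Form (ES m) Y 2} (hw : IsTamingSymplectic w K)
    (hc : CompactSpace Y ∨ CompatOff ∅ w K)
    {g : X → Y} (hg : ImmersesOff S g J K) :
    (∃ σ : Form (ES d) X 2, IsTamingSymplectic σ J) ∧
    ∀ σ₀ : Form (ES d) X 2, IsSmooth σ₀ → IsClosedForm σ₀ →
      InClassOff S σ₀ (NCP.pull (V := ES m) (W := ES d) g w) → TamedIn σ₀ J := by
  have hmX : IsManifold (𝓡 d) ∞ X := (inferInstance : IsManifold 𝓘(ℝ, ES d) ∞ X)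
  have hmY : IsManifold (𝓡 m) ∞ Y := (inferInstance : IsManifold 𝓘(ℝ, ES m) ∞ Y)
  obtain ⟨hth, hai⟩ := thin_of_countable (X := X) hd hS hSc
  obtain ⟨r1, r2⟩ := result_class hd hth hJ hJ1
  have hT : PU.TameOff (d := m) (X := Y) ∅ w K := by
    rcases hc with hc | hc
    · exact PU.tameOff_of_smooth (d := m) (X := Y) (cont_of hK) ((smooth_iff w).1 hw.smooth)
        (fun x v hv => hw.tames x v hv) ∅
    · exact PU.CompOff.tame (d := m) (X := Y) ((compatOff_iff ∅ w K).1 hc) hK.sq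
  obtain ⟨hpos, C, hC⟩ := hT
  have hval : ∀ (x : X) (v u : TangentSpace 𝓘(ℝ, ES d) x),
      NCP.pull (V := ES m) (W := ES d) g w x ![v, u] =
        w (g x) ![NCP.der (V := ES m) (W := ES d) g x v,
          NCP.der (V := ES m) (W := ES d) g x u] := by
    intro x v u
    have h1 : NCP.pull (V := ES m) (W := ES d) g w x ![v, u] = w (g x) (fun i =>
        NCP.der (V := ES m) (W := ES d) g x
          ((![v, u] : Fin 2 → TangentSpace 𝓘(ℝ, ES d) x) i)) := rfl
    rw [h1]
    congr 1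
    funext i
    fin_cases i <;> rfl
  have hq : ∀ x, x ∉ S → ∀ v : TangentSpace 𝓘(ℝ, ES d) x,
      qd (NCP.pull (V := ES m) (W := ES d) g w) J x v =
        qd w K (g x) (NCP.der (V := ES m) (W := ES d) g x v) := by
    intro x hx v
    unfold qd
    rw [hval, hg.hol x hx]
  have hto : TamesOff S (NCP.pull (V := ES m) (W := ES d) g w) J := by
    refine ⟨fun x hx v hv => ?_, C, fun x hx u v => ?_⟩
    · rw [hq x hx]
      refine hw.tames _ _ fun h0 => hv ?_
      exact hg.inj x hx (h0.trans (map_zero _).symm)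
    · rw [hq x hx, hq x hx, hval]
      exact hC _ (notMem_empty _) _ _
  have hsm : SmoothOff S (NCP.pull (V := ES m) (W := ES d) g w) :=
    (smoothOff_iff S _).2 (smoothOff_pullF (d := d) (m := m) (X := X) (Y := Y) hg.smooth
      ((smooth_iff w).1 hw.smooth))
  have hcl : ClosedOff S (NCP.pull (V := ES m) (W := ES d) g w) :=
    (closedOff_iff S _).2 ⟨(smoothOff_iff S _).1 hsm,
      closedOff_pullF (d := d) (m := m) (X := X) (Y := Y) hg.smooth
        ((smooth_iff w).1 hw.smooth) ((closed_iff w).1 hw.closed)⟩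
  exact ⟨r2.2 ⟨_, hcl, hto, hai _⟩, fun σ₀ g1 g2 g3 => (r1 σ₀ g1 g2).2 ⟨_, g3, hto, hai _⟩⟩

omit [CompactSpace X] [T2Space X] in
/-- a taming form represents its own class -/
theorem tamedIn_self {J : End (ES d) X} {σ : Form (ES d) X 2} (h1 : IsSmooth σ)
    (h2 : IsClosedForm σ) (h3 : ∀ x, TamesAt σ J x) : TamedIn σ J := by
  have hm : IsManifold (𝓡 d) ∞ X := (inferInstance : IsManifold 𝓘(ℝ, ES d) ∞ X)
  refine ⟨σ, ⟨h1, h2, fun x v hv => ?_, h3⟩, ?_⟩
  · by_contra h0
    have h4 := h3 x v h0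
    unfold qd at h4
    rw [hv] at h4
    exact lt_irrefl 0 h4
  · have h5 : InClass σ σ := (inClass_iff σ σ).2
      (H819.NC.inClass_refl (d := d) (X := X) ((smooth_iff σ).1 h1) ((closed_iff σ).1 h2))
    exact h5.2.2

end Pool.Agent.H819.MDP
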