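import Mathlib
import Pool.Agent.H819.MD.Main2

/-!
# Modifications whose fibres are numerically good
-/

set_option autoImplicit false

open Set Filter Topology MeasureTheory Metric
open scoped Manifold ContDiff ENNReal NNReal

noncomputable section

namespace Pool.Agent.H819.MDP

open Pool.Agent.Y501 (SY.E)
open Pool.Agent.Y501.SYP hiding cs smooth_iff isD_iff closed_iff
open Pool.Agent.H819.LGP Pool.Agent.H819.LNP Pool.Agent.H819.HNP
open Pool.Agent.H819.EMP Pool.Agent.H819.PUP Pool.Agent.H819.RNP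
open Pool.Agent Pool.Agent.H819.MD

variable {d : ℕ} {X : Type} [TopologicalSpace X] [ChartedSpace (ES d) X]
  [IsManifold 𝓘(ℝ, ES d) ∞ X] [CompactSpace X] [T2Space X]
  {Z : Type} [TopologicalSpace Z] [ChartedSpace (ES d) Z]
  [IsManifold 𝓘(ℝ, ES d) ∞ Z] [CompactSpace Z] [T2Space Z]

attribute [local instance] Pool.Agent.H819.LGP.cs

omit [IsManifold 𝓘(ℝ, ES d) ∞ X] [CompactSpace X] [T2Space X] [CompactSpace Z] in
/-- a one-point fibre without null vectors is numerically good -/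
theorem good_of_inj {I : End (ES d) Z} {σ ζ : Form (ES d) Z 2} (hζ : IsSmooth ζ)
    (hζc : IsClosedForm ζ) {z₀ : Z} {F : Set Z} (hF : F ⊆ {z₀})
    (hnull : ∀ v : TangentSpace 𝓘(ℝ, ES d) z₀, qd σ I z₀ v = 0 → v = 0) :
    NumericallyGood σ ζ I F := by
  have hm : IsManifold (𝓡 d) ∞ Z := (inferInstance : IsManifold 𝓘(ℝ, ES d) ∞ Z)
  have hnull' : ∀ z ∈ F, ∀ v : TangentSpace 𝓘(ℝ, ES d) z, qd σ I z v = 0 → v = 0 := by
    intro z hz
    rw [mem_singleton_iff.1 (hF hz)]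
    exact hnull
  refine ⟨0, fun _ => ∅, fun _ => ζ, empty_chain ζ I, fun _ => (inClass_iff ζ ζ).2
    (H819.NC.inClass_refl (d := d) (X := Z) ((smooth_iff ζ).1 hζ) ((closed_iff ζ).1 hζc)),
    ?_, ?_⟩
  · intro x₀ N hN
    refine ⟨0, fun _ z hz hzF u hu => ?_⟩
    rw [zero_mul, neg_zero]
    have e1 : ∀ s : Form (ES d) Z 2, ev2 (loc x₀ s z) u (op I x₀ z u) =
        qd s I ((chartAt (ES d) x₀).symm z) (Y455.SY.A (d := d) (X := Z) x₀ z u) := fun s =>
      H819.RN.exists_vl (d := d) (X := Z) s I x₀ (hN.2 hz) u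
    rw [e1] at hu ⊢
    rw [hnull' _ hzF _ hu]
    unfold qd
    exact ((ζ _).map_coord_zero 0 rfl).ge
  · intro x₀
    have h1 : {x | x ∈ F ∧ x ∉ (∅ : Set Z) ∧ ¬ PositiveLimit σ I (fun _ => ζ) x} = ∅ := by
      refine eq_empty_of_forall_notMem ?_
      rintro x ⟨h3, -, h2⟩
      exact h2 fun v hv hv0 => absurd (hnull' x h3 v hv0) hv
    rw [h1, empty_inter, image_empty, measure_empty]

/-- the pull-back of a taming form under a modification -/
theorem semi {J : End (ES d) X} {I : End (ES d) Z} {S : Set X} {f : Z → X}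
    (hf : IsModification f S I J) {σ : Form (ES d) X 2} (hσ : IsTamingSymplectic σ J) :
    Semipositive (W := ES d) f (BCP.pull f σ) I :=
  (semipositive_pull (X := Z) (Y := X) (J := I) (K := J) (f := f) hf.smooth hf.hol hσ).1

/-- lifting of taming symplectic forms -/
theorem lift {J : End (ES d) X} {I : End (ES d) Z} (hI : IsAlmostComplex I)
    (hI1 : LocHolder I 1) {S : Set X} {f : Z → X} (hf : IsModification f S I J)
    {σ : Form (ES d) X 2} (hσ : IsTamingSymplectic σ J) {ζ : Form (ES d) Z 2}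
    (hζ : GoodOver f S σ I ζ) : TamedNear (BCP.pull f σ) ζ I := by
  obtain ⟨h1, h2, h3⟩ := hζ
  have hs := semi hf hσ
  refine near_of hI hI1 hs.smooth_map hs.smooth hs.closed h1 h2 hs.nonneg hs.null fun y => ?_
  by_cases hy : y ∈ S
  · exact h3 y hy
  · obtain ⟨z₀, hz₀, huni⟩ := hf.bij y hy
    refine good_of_inj h1 h2 (z₀ := z₀) (fun z hz => huni z hz) fun v hv => ?_
    have hb := hf.inv z₀ (by rwa [hz₀])
    have h4 := hs.null z₀ v hv
    exact hb.1 (h4.trans (map_zero _).symm)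

theorem taming_add {J : End (ES d) X} {I : End (ES d) Z} {S : Set X} {f : Z → X}
    (hf : IsModification f S I J) {σ : Form (ES d) X 2} (hσ : IsTamingSymplectic σ J)
    {τ : Form (ES d) Z 2} (hτ : IsTamingSymplectic τ I) :
    TamedIn (comb (BCP.pull f σ) 1 τ) I := by
  have hm : IsManifold (𝓡 d) ∞ Z := (inferInstance : IsManifold 𝓘(ℝ, ES d) ∞ Z)
  have hs := semi hf hσ
  have e : (comb (BCP.pull f σ) 1 τ : Form (ES d) Z 2) =
      fun x => BCP.pull (V := ES d) f σ x + τ x := by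
    funext x
    show BCP.pull (V := ES d) f σ x + (1 : ℝ) • τ x = _
    rw [one_smul]
  refine tamedIn_self ?_ ?_ fun x v hv => ?_
  · rw [e]
    exact (smooth_iff _).2 (((smooth_iff _).1 hs.smooth).add ((smooth_iff _).1 hτ.smooth))
  · rw [e]
    refine (closed_iff _).2 ?_
    have h1 := ((closed_iff _).1 hs.closed).add ((closed_iff _).1 hτ.closed)
      ((smooth_iff _).1 hs.smooth) ((smooth_iff _).1 hτ.smooth)
    rw [add_zero] at h1
    exact h1
  · rw [e]
    have h1 : qd (fun x => BCP.pull (V := ES d) f σ x + τ x) I x v =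
      qd (BCP.pull (V := ES d) f σ) I x v + qd τ I x v := rfl
    rw [h1]
    exact add_pos_of_nonneg_of_pos (hs.nonneg x v) (hτ.tames x v hv)

/-- **Modifications.** -/
theorem lift_iff (hd : 4 ≤ d) {J : End (ES d) X} {I : End (ES d) Z} (hJ : IsAlmostComplex J)
    (hJ1 : C1End J) (hI : IsAlmostComplex I) (hI1 : LocHolder I 1) {S : Set X}
    (hS : IsClosed S) (hSc : S.Countable) {f : Z → X} (hf : IsModification f S I J) :
    (∃ τ : Form (ES d) Z 2, IsTamingSymplectic τ I) ↔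
      ∃ σ : Form (ES d) X 2, IsTamingSymplectic σ J ∧ ∃ ζ, GoodOver f S σ I ζ := by
  constructor
  · rintro ⟨τ, hτ⟩
    obtain ⟨σ, hσ⟩ := (descend hd hJ hJ1 hI hS hSc hf).1 ⟨τ, hτ⟩
    have hs := semi hf hσ
    exact ⟨σ, hσ, τ, hτ.smooth, hτ.closed, fun s _ =>
      good_of_tamed hs.smooth hs.closed one_pos (taming_add hf hσ hτ) _⟩
  · rintro ⟨σ, hσ, ζ, hζ⟩
    obtain ⟨t₀, ht₀, h⟩ := lift hI hI1 hf hσ hζ
    obtain ⟨w, hw, -⟩ := h t₀ ht₀ le_rfl
    exact ⟨w, hw⟩

/-- **Modifications whose fibres are curves.** -/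
theorem curve_iff (hd : 4 ≤ d) {J : End (ES d) X} {I : End (ES d) Z} (hJ : IsAlmostComplex J)
    (hJ1 : C1End J) (hI : IsAlmostComplex I) (hI1 : LocHolder I 1) (hIs : SmoothEnd I) {S : Set X}
    (hS : IsClosed S) (hSc : S.Countable) {f : Z → X} (hf : IsModification f S I J)
    (hF : ∀ s ∈ S, IsCurve I (f ⁻¹' {s})) :
    (∃ τ : Form (ES d) Z 2, IsTamingSymplectic τ I) ↔
      (∃ σ : Form (ES d) X 2, IsTamingSymplectic σ J) ∧
        ∃ ζ : Form (ES d) Z 2, IsSmooth ζ ∧ IsClosedForm ζ ∧ PositiveOnFibres f ζ I := by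
  constructor
  · rintro ⟨τ, hτ⟩
    exact ⟨(descend hd hJ hJ1 hI hS hSc hf).1 ⟨τ, hτ⟩, τ, hτ.smooth, hτ.closed,
      fun S _ _ _ _ _ j u P y hj hu _ => curve_tamed hτ hj hu⟩
  · rintro ⟨⟨σ, hσ⟩, ζ, h1, h2, h3⟩
    exact (lift_iff hd hJ hJ1 hI hI1 hS hSc hf).2 ⟨σ, hσ, ζ, h1, h2, fun s hs =>
      curve_good hI hIs h1 h2 (hF s hs) h3⟩

end Pool.Agent.H819.MDP
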