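import Mathlib
import Pool.Agent.H819.BC.Fibre
import Pool.Agent.H819.BC.Push
import Pool.Agent.H819.PU.Cant
import Pool.Agent.H819.DR.DeRham

/-!
# The push-forward of a smooth form by a modification is integrable
-/

set_option autoImplicit false

open Set Filter Topology MeasureTheory Metric
open scoped Manifold ContDiff

noncomputable section

namespace Pool.Agent.H819.MD

open Pool.Agent.Y501.SY
open Pool.Agent.Y455.SY (A B AB BA)
open Pool.Agent.H819 Pool.Agent.H819.BC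

variable {d : ℕ} {X : Type} [TopologicalSpace X] [ChartedSpace (E d) X]
  {Z : Type} [TopologicalSpace Z] [ChartedSpace (E d) Z]

/-- `w` is the push-forward of `τ` by `f` off `S`, and `g` is the inverse of `f` there. -/
structure PushOff (f : Z → X) (S : Set X) (g : X → Z) (τ : Form d Z 2) (w : Form d X 2) :
    Prop where
  inv : ∀ z, f z ∉ S → (Df (d := d) f z).IsInvertible
  left : ∀ z, f z ∉ S → g (f z) = z
  right : ∀ x, x ∉ S → f (g x) = x
  val : ∀ z, f z ∉ S → (w (f z) : (E d) [⋀^Fin 2]→L[ℝ] ℝ) = ci (τ z) (Df (d := d) f z)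

variable [IsManifold (𝓡 d) ∞ X] [IsManifold (𝓡 d) ∞ Z]

/-- integrability on the image of a compact piece of a chart -/
theorem int_piece {f : Z → X} (hf : ContMDiff (𝓡 d) (𝓡 d) ∞ f) {S : Set X} (hS : IsClosed S)
    {g : X → Z} {τ : Form d Z 2} {w : Form d X 2} (hτ : IsSmooth τ) (h : PushOff f S g τ w)
    (x₁ : Z) (y₀ : X) {T : Set (E d)} (hT : IsCompact T) (hTW : T ⊆ Wc f x₁ y₀) :
    IntegrableOn (pb (chartAt (E d) y₀).symm w) (lc f x₁ y₀ ''
      (T ∩ ((chartAt (E d) x₁).target ∩ (chartAt (E d) x₁).symm ⁻¹' (f ⁻¹' Sᶜ)))) := by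
  set Q : Set (E d) := T ∩ ((chartAt (E d) x₁).target ∩
    (chartAt (E d) x₁).symm ⁻¹' (f ⁻¹' Sᶜ)) with hQ
  have hQm : MeasurableSet Q := hT.measurableSet.inter
    ((chartAt (E d) x₁).symm.isOpen_inter_preimage
      (hS.isOpen_compl.preimage hf.continuous)).measurableSet
  have hQW : ∀ z ∈ Q, z ∈ Wc (d := d) f x₁ y₀ := fun z hz => hTW hz.1
  have hW := isOpen_Wc (d := d) hf.continuous x₁ y₀
  have hlc := contDiffOn_lc (d := d) hf x₁ y₀
  have hder : ∀ z ∈ Q, HasFDerivWithinAt (lc (d := d) f x₁ y₀)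
      (fderiv ℝ (lc (d := d) f x₁ y₀) z) Q z := fun z hz =>
    ((hlc.contDiffAt (hW.mem_nhds (hQW z hz))).differentiableAt
      (by simp)).hasFDerivAt.hasFDerivWithinAt
  have hinj : InjOn (lc (d := d) f x₁ y₀) Q := by
    intro z hz z' hz' he
    have h1 : f ((chartAt (E d) x₁).symm z) = f ((chartAt (E d) x₁).symm z') := by
      rw [← symm_lc (hQW z hz), ← symm_lc (hQW z' hz'), he]
    have h2 : (chartAt (E d) x₁).symm z = (chartAt (E d) x₁).symm z' := by
      rw [← h.left _ hz.2.2, ← h.left _ hz'.2.2, h1]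
    rw [← (chartAt (E d) x₁).right_inv hz.2.1, ← (chartAt (E d) x₁).right_inv hz'.2.1, h2]
  rw [integrableOn_image_iff_integrableOn_abs_det_fderiv_smul volume hQm hder hinj]
  have hs : ContinuousOn (pb (chartAt (E d) x₁).symm τ) (Wc (d := d) f x₁ y₀) :=
    (LG.smooth_chart hτ x₁).continuousOn.mono fun z hz => hz.1
  have hint := intOn_hk hW hlc (hasMinors_two hW hlc hs) hT hTW
  refine (hint.mono_set (t := T ∩ reg (lc (d := d) f x₁ y₀) (Wc (d := d) f x₁ y₀))
    (s := Q) fun z hz => ⟨hz.1, hQW z hz, (det_lc hf (hQW z hz)).2 (h.inv _ hz.2.2)⟩).congr_fun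
    (fun z hz => ?_) hQm
  have e1 : (w ((chartAt (E d) y₀).symm (lc f x₁ y₀ z)) : (E d) [⋀^Fin 2]→L[ℝ] ℝ) =
      ci (τ ((chartAt (E d) x₁).symm z)) (Df (d := d) f ((chartAt (E d) x₁).symm z)) := by
    rw [symm_lc (hQW z hz)]
    exact h.val _ hz.2.2
  have e2 : hk (lc (d := d) f x₁ y₀) (pb (chartAt (E d) x₁).symm τ) z =
      pb (chartAt (E d) y₀).symm w (lc f x₁ y₀ z) := by
    ext v
    have l1 : hk (lc (d := d) f x₁ y₀) (pb (chartAt (E d) x₁).symm τ) z v =
        (τ ((chartAt (E d) x₁).symm z) : (E d) [⋀^Fin 2]→L[ℝ] ℝ)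
          (fun i => A x₁ z ((fderiv ℝ (lc (d := d) f x₁ y₀) z).inverse (v i))) := rfl
    have l2 : pb (chartAt (E d) y₀).symm w (lc f x₁ y₀ z) v =
        (w ((chartAt (E d) y₀).symm (lc f x₁ y₀ z)) : (E d) [⋀^Fin 2]→L[ℝ] ℝ)
          (fun i => A y₀ (lc f x₁ y₀ z) (v i)) := rfl
    rw [l1, l2, e1]
    refine Eq.trans ?_ (ci_apply _ _ _).symm
    congr 1
    funext i
    exact (inverse_lc hf (hQW z hz) (v i)).symm
  show |(fderiv ℝ (lc (d := d) f x₁ y₀) z).det| • hk (lc (d := d) f x₁ y₀)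
    (pb (chartAt (E d) x₁).symm τ) z = |(fderiv ℝ (lc (d := d) f x₁ y₀) z).det| •
      pb (chartAt (E d) y₀).symm w (lc f x₁ y₀ z)
  rw [e2]

/-- **Integrability of the push-forward.** -/
theorem int_all [CompactSpace Z] [T2Space X] {f : Z → X} (hf : ContMDiff (𝓡 d) (𝓡 d) ∞ f)
    {S : Set X} (hS : IsClosed S) (hS0 : PU.HNull d S) {g : X → Z} {τ : Form d Z 2}
    {w : Form d X 2} (hτ : IsSmooth τ) (h : PushOff f S g τ w) (p : X) : PU.IntNear w p := by
  rw [PU.CantAux.intNear_iff]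
  -- a finite cover of the fibre
  have hK : IsCompact (f ⁻¹' {p}) := (isClosed_singleton.preimage hf.continuous).isCompact
  have h1 : ∀ z : Z, z ∈ f ⁻¹' {p} → ∃ ρ : ℝ, 0 < ρ ∧
      closedBall (chartAt (E d) z z) ρ ⊆ Wc (d := d) f z p := by
    intro z hz
    refine nhds_basis_closedBall.mem_iff.1 ((isOpen_Wc (d := d) hf.continuous z p).mem_nhds ?_)
    refine ⟨mem_chart_target _ _, ?_⟩
    show f ((chartAt (E d) z).symm (chartAt (E d) z z)) ∈ (chartAt (E d) p).source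
    rw [(chartAt (E d) z).left_inv (mem_chart_source _ _), mem_singleton_iff.1 hz]
    exact mem_chart_source _ _
  choose! ρ hρ0 hρ using h1
  obtain ⟨t, ht, hcov⟩ := hK.elim_nhds_subcover
    (fun z => (chartAt (E d) z).source ∩ chartAt (E d) z ⁻¹' ball (chartAt (E d) z z) (ρ z))
    (fun z hz => ((chartAt (E d) z).isOpen_inter_preimage isOpen_ball).mem_nhds
      ⟨mem_chart_source _ _, mem_ball_self (hρ0 z hz)⟩)
  set U : Set Z := ⋃ z ∈ t, (chartAt (E d) z).source ∩
    chartAt (E d) z ⁻¹' ball (chartAt (E d) z z) (ρ z) with hU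
  have hUo : IsOpen U := isOpen_biUnion fun z _ =>
    (chartAt (E d) z).isOpen_inter_preimage isOpen_ball
  have hVc : IsClosed (f '' Uᶜ) := (hUo.isClosed_compl.isCompact.image hf.continuous).isClosed
  have hpV : p ∈ (f '' Uᶜ)ᶜ := by
    rintro ⟨z, hz, hzp⟩
    exact hz (hcov hzp)
  set O : Set (E d) := (chartAt (E d) p).target ∩ (chartAt (E d) p).symm ⁻¹' (f '' Uᶜ)ᶜ with hO
  have hOo : IsOpen O := (chartAt (E d) p).symm.isOpen_inter_preimage hVc.isOpen_compl
  have hpO : chartAt (E d) p p ∈ O := by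
    refine ⟨mem_chart_target _ _, ?_⟩
    show (chartAt (E d) p).symm (chartAt (E d) p p) ∈ (f '' Uᶜ)ᶜ
    rw [(chartAt (E d) p).left_inv (mem_chart_source _ _)]
    exact hpV
  refine ⟨O, hOo.mem_nhds hpO, ?_⟩
  -- integrability on the pieces
  have i1 : IntegrableOn (pb (chartAt (E d) p).symm w)
      (chartAt (E d) p '' (S ∩ (chartAt (E d) p).source)) := by
    rw [IntegrableOn, Measure.restrict_eq_zero.2 (PU.CantAux.null_chart hS0 p)]
    exact integrable_zero_measure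
  have i2 : IntegrableOn (pb (chartAt (E d) p).symm w) (⋃ z ∈ t, lc f z p ''
      (closedBall (chartAt (E d) z z) (ρ z) ∩ ((chartAt (E d) z).target ∩
        (chartAt (E d) z).symm ⁻¹' (f ⁻¹' Sᶜ)))) := by
    rw [integrableOn_finset_iUnion]
    intro z hz
    exact int_piece hf hS hτ h z p (isCompact_closedBall _ _) (hρ z (ht z hz))
  refine (i1.union i2).mono_set ?_
  rintro q ⟨hqt, hqV⟩
  by_cases hqS : (chartAt (E d) p).symm q ∈ S
  · left
    exact ⟨_, ⟨hqS, (chartAt (E d) p).map_target hqt⟩, (chartAt (E d) p).right_inv hqt⟩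
  · right
    obtain ⟨z, hz⟩ : ∃ z, z = g ((chartAt (E d) p).symm q) := ⟨_, rfl⟩
    have hfz : f z = (chartAt (E d) p).symm q := by
      rw [hz]
      exact h.right _ hqS
    have hzU : z ∈ U := by
      by_contra hzU
      exact hqV ⟨z, hzU, hfz⟩
    obtain ⟨z₁, hz₁⟩ := mem_iUnion.1 hzU
    obtain ⟨hz₁t, hz₁'⟩ := mem_iUnion.1 hz₁
    refine mem_biUnion hz₁t ⟨chartAt (E d) z₁ z, ⟨ball_subset_closedBall hz₁'.2,
      (chartAt (E d) z₁).map_source hz₁'.1, ?_⟩, ?_⟩
    · show f ((chartAt (E d) z₁).symm (chartAt (E d) z₁ z)) ∈ Sᶜ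
      rw [(chartAt (E d) z₁).left_inv hz₁'.1, hfz]
      exact hqS
    · unfold lc
      rw [(chartAt (E d) z₁).left_inv hz₁'.1, hfz]
      exact (chartAt (E d) p).right_inv hqt

omit [IsManifold (𝓡 d) ∞ Z] in
/-- integrability near all the points gives a locally integrable closed form -/
theorem l1Closed_of [T2Space X] (hd : 3 ≤ d) {S : Set X} (hS : IsClosed S)
    (hS0 : PU.HNull d S) {θ : Form d X 2} (hθ : PU.SmoothOff S θ) (hcl : PU.ClosedOff S θ)
    (hall : ∀ p : X, PU.IntNear θ p) : DR.L1Closed θ := by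
  have hloc : ∀ x₀ : X, LocallyIntegrableOn (pb (chartAt (E d) x₀).symm θ)
      (chartAt (E d) x₀).target := by
    intro x₀ z hz
    have h1 := PU.CantAux.transfer x₀ ((chartAt (E d) x₀).symm z) ((chartAt (E d) x₀).map_target hz)
      (mem_chart_source _ _) (PU.CantAux.intNear_iff.1 (hall _))
    rw [(chartAt (E d) x₀).right_inv hz] at h1
    exact h1.filter_mono nhdsWithin_le_nhds
  refine ⟨hloc, fun x₀ φ hφ hφc hφt a b c => ?_⟩
  obtain ⟨N, hN, hKN, hNt⟩ := exists_compact_between hφc.isCompact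
    (chartAt (E d) x₀).open_target hφt
  exact PU.CantAux.weakClosed_part hd hS hS0 hθ hcl x₀ isOpen_interior hN.isClosed interior_subset hNt
    ((hloc x₀).mono_set (interior_subset.trans hNt)) φ hφ hφc hKN a b c

end Pool.Agent.H819.MD
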