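import Mathlib
import Pool.Agent.H819.MD.Int
import Pool.Agent.H819.PU.PMain
import Pool.Agent.H819.NC.Fin

/-!
# The push-forward of a taming form by a modification is strongly taming
-/

set_option autoImplicit false

open Set Filter Topology MeasureTheory Metric
open scoped Manifold ContDiff

noncomputable section

namespace Pool.Agent.H819.MD

open Pool.Agent.Y501.SY
open Pool.Agent.Y455.SY (A B AB BA)
open Pool.Agent.H819 Pool.Agent.H819.BC
open Pool.Agent.H819.LG (TamedIn Represents StronglyTames LocHolder InClass WeakPrim)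

variable {d : ℕ} {X : Type} [TopologicalSpace X] [ChartedSpace (E d) X]
  {Z : Type} [TopologicalSpace Z] [ChartedSpace (E d) Z]
  [IsManifold (𝓡 d) ∞ X] [IsManifold (𝓡 d) ∞ Z]

theorem stronglyTames_push [CompactSpace Z] [T2Space X] {f : Z → X}
    (hf : ContMDiff (𝓡 d) (𝓡 d) ∞ f) {S : Set X} (hS0 : PU.HNull d S) {I : End d Z} {J : End d X}
    (hI : ∀ x₀, ContinuousOn (inChart I x₀) (chartAt (E d) x₀).target)
    (hol : ∀ (z : Z) (v : E d), Df (d := d) f z (eJ I z v) = eJ J (f z) (Df f z v))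
    {g : X → Z} {τ : Form d Z 2} {w : Form d X 2} (hτ : IsSmooth τ) (ht : ∀ z, TamesAt τ I z)
    (h : PushOff f S g τ w) (hw : PU.TameOff S w J) : StronglyTames w J := by
  intro x₀ N hN hNt
  obtain ⟨C, hC⟩ := hw.dist
  obtain ⟨c, hc0, hcl⟩ := exists_lower hf hτ hI ht x₀ hN hNt
  refine ⟨c, hc0, C, ?_⟩
  have hae : ∀ᵐ z ∂(volume.restrict N), (chartAt (E d) x₀).symm z ∉ S := by
    have h1 : ∀ᵐ z : E d, z ∉ chartAt (E d) x₀ '' (S ∩ (chartAt (E d) x₀).source) := by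
      rw [ae_iff]
      have h2 : {a : E d | ¬ a ∉ chartAt (E d) x₀ '' (S ∩ (chartAt (E d) x₀).source)} =
          chartAt (E d) x₀ '' (S ∩ (chartAt (E d) x₀).source) := by
        ext a
        simp only [mem_ofPred_eq, not_not]
      rw [h2]
      exact PU.CantAux.null_chart hS0 x₀
    filter_upwards [ae_restrict_of_ae h1, ae_restrict_mem hN.measurableSet] with z hz hzN hzS
    exact hz ⟨_, ⟨hzS, (chartAt (E d) x₀).map_target (hNt hzN)⟩,
      (chartAt (E d) x₀).right_inv (hNt hzN)⟩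
  filter_upwards [hae, ae_restrict_mem hN.measurableSet] with p hpS hpN
  have hpt := hNt hpN
  refine ⟨fun u => ?_, fun u v => ?_⟩
  · rw [PU.CantAux.pb_two, PU.CantAux.A_inChart J x₀ hpt]
    obtain ⟨z, hz⟩ : ∃ z, z = g ((chartAt (E d) x₀).symm p) := ⟨_, rfl⟩
    have hfz : f z = (chartAt (E d) x₀).symm p := by
      rw [hz]
      exact h.right _ hpS
    have hfS : f z ∉ S := by
      rw [hfz]
      exact hpS
    have hinv := h.inv z hfS
    set a : E d := (Df (d := d) f z).inverse (A x₀ p u) with ha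
    have hDa : Df (d := d) f z a = A x₀ p u := hinv.self_apply_inverse _
    have h1 := hcl p hpN z hfz a
    rw [hDa, BA x₀ hpt] at h1
    refine h1.trans (le_of_eq ?_)
    have e1 : (w ((chartAt (E d) x₀).symm p) : (E d) [⋀^Fin 2]→L[ℝ] ℝ) =
        ci (τ z) (Df (d := d) f z) := by
      rw [← hfz]
      exact h.val z hfS
    have e2' : (eJ J ((chartAt (E d) x₀).symm p) : E d →L[ℝ] E d) = eJ J (f z) := by
      rw [hfz]
    have h2 : (Df (d := d) f z).inverse (eJ J (f z) (A x₀ p u)) = eJ I z a := by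
      have h3 := hol z a
      rw [hDa] at h3
      rw [← h3]
      exact hinv.inverse_apply_self _
    have h4 : (w ((chartAt (E d) x₀).symm p) : (E d) [⋀^Fin 2]→L[ℝ] ℝ)
        ![A x₀ p u, eJ J ((chartAt (E d) x₀).symm p) (A x₀ p u)] = e2 τ z a (eJ I z a) := by
      rw [e1, e2']
      refine (ci_two _ _ _ _).trans ?_
      rw [h2]
      rfl
    exact h4.symm
  · rw [PU.CantAux.pb_two, PU.CantAux.pb_two, PU.CantAux.pb_two,
      PU.CantAux.A_inChart J x₀ hpt, PU.CantAux.A_inChart J x₀ hpt]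
    exact hC _ hpS _ _

/-- **The push-forward class.** -/
theorem push_class [CompactSpace X] [CompactSpace Z] [T2Space X] (hd : 3 ≤ d) {f : Z → X}
    (hf : ContMDiff (𝓡 d) (𝓡 d) ∞ f) {S : Set X} (hS : IsClosed S) (hS0 : PU.HNull d S)
    {g : X → Z} {τ : Form d Z 2} {w : Form d X 2} (hτ : IsSmooth τ) (h : PushOff f S g τ w)
    (hw : PU.SmoothOff S w) (hcl : PU.ClosedOff S w) :
    ∃ σ₀ : Form d X 2, IsSmooth σ₀ ∧ IsClosedForm σ₀ ∧ Represents σ₀ w := by
  have hL := l1Closed_of hd hS hS0 hw hcl fun p => int_all hf hS hS0 hτ h p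
  obtain ⟨σ₀, α, h1, h2, h3⟩ := DR.weak_deRham hL
  exact ⟨σ₀, h1, h2, α, h3⟩

/-- **The numerical criterion for the push-forward class.** -/
theorem push_tamed [CompactSpace X] [CompactSpace Z] [T2Space X] (hd : 3 ≤ d) {f : Z → X}
    (hf : ContMDiff (𝓡 d) (𝓡 d) ∞ f) {S : Set X} (hS : IsClosed S) (hS0 : PU.HNull d S)
    {I : End d Z} {J : End d X}
    (hI : ∀ x₀, ContinuousOn (inChart I x₀) (chartAt (E d) x₀).target)
    (hJ2 : ∀ (x : X) (v : TangentSpace (𝓡 d) x), J x (J x v) = -v)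
    (hJ : ∀ x₀, ContinuousOn (inChart J x₀) (chartAt (E d) x₀).target) (hJL : LocHolder J 1)
    (hol : ∀ (z : Z) (v : E d), Df (d := d) f z (eJ I z v) = eJ J (f z) (Df f z v))
    {g : X → Z} {τ : Form d Z 2} {w : Form d X 2} (hτ : IsSmooth τ) (ht : ∀ z, TamesAt τ I z)
    (h : PushOff f S g τ w) (hw : PU.SmoothOff S w) (hwt : PU.TameOff S w J)
    {σ₀ : Form d X 2} (hσ : IsSmooth σ₀) (hσc : IsClosedForm σ₀) (hr : Represents σ₀ w)
    {S₀ : Set X} (h1 : IsClosed S₀) (h2 : IsTotallyDisconnected S₀)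
    (h3 : ∀ p ∈ S₀, ContDiffAt ℝ 1 (inChart J p) (chartAt (E d) p p))
    {n : ℕ} {C : ℕ → Set X} (h4 : NC.CurveChain σ₀ J n C)
    (h5 : HN.HN (d := d) 2 {p | p ∈ S ∧ p ∉ S₀ ∧ p ∉ C n}) : TamedIn σ₀ J := by
  refine (NC.num_criterion (by omega) hJ2 hJ hJL hσ hσc).2 ⟨w, hr,
    stronglyTames_push hf hS0 hI hol hτ ht h hwt, S₀, h1, h2, h3, n, C, h4, h5.mono ?_⟩
  rintro p ⟨g1, g2, g3⟩
  refine ⟨?_, g1, g2⟩
  by_contra hp
  exact g3 (PU.zero_off hd hS hw p hp)

end Pool.Agent.H819.MD
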