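import Mathlib
import Pool.Agent.H819.MD.Conv
import Pool.Agent.H819.MD.Strong
import Pool.Agent.H819.BC.Br

/-!
# The push-forward of a taming symplectic form by a modification
-/

set_option autoImplicit false

open Set Filter Topology MeasureTheory Metric
open scoped Manifold ContDiff ENNReal NNReal

noncomputable section

namespace Pool.Agent.H819.MDP

open Pool.Agent.Y501 (SY.E)
open Pool.Agent.Y501.SYP hiding cs smooth_iff isD_iff closed_iff
open Pool.Agent.H819.LGP Pool.Agent.H819.LNP Pool.Agent.H819.HNP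
open Pool.Agent.H819.EMP Pool.Agent.H819.PUP Pool.Agent.H819.RNP
open Pool.Agent.H819.NCP (IsSimple NumericalChain)
open Pool.Agent Pool.Agent.H819.MD

variable {d : ℕ} {X : Type} [TopologicalSpace X] [ChartedSpace (ES d) X]
  {Z : Type} [TopologicalSpace Z] [ChartedSpace (ES d) Z]

attribute [local instance] Pool.Agent.H819.LGP.cs

theorem hnull_of (hd : 3 ≤ d) {S : Set X} (h : HausdorffNull (V := ES d) ((d : ℝ) - 3) S) :
    PU.HNull (X := X) d S := by
  have e : ((d - 3 : ℕ) : ℝ) = (d : ℝ) - 3 := by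
    rw [Nat.cast_sub hd]
    norm_num
  unfold PU.HNull
  rw [e]
  exact h

theorem smoothOff_congr {S : Set X} {w w' : Form (ES d) X 2} (h : ∀ x, x ∉ S → w x = w' x)
    (h' : SmoothOff S w') : SmoothOff S w := by
  intro U φ hφ
  refine (h' U φ hφ).congr fun p hp => ?_
  show (w (φ p)).compContinuousLinearMap _ = (w' (φ p)).compContinuousLinearMap _
  rw [h _ (hφ.off p hp)]

theorem closedOff_congr {S : Set X} {w w' : Form (ES d) X 2} (h : ∀ x, x ∉ S → w x = w' x)
    (h' : ClosedOff S w') : ClosedOff S w := by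
  refine ⟨smoothOff_congr h h'.smooth, fun U φ hφ p hp => ?_⟩
  have h1 : pb φ w =ᶠ[𝓝 p] pb φ w' := by
    filter_upwards [hφ.1.1.mem_nhds hp] with q hq
    show (w (φ q)).compContinuousLinearMap _ = (w' (φ q)).compContinuousLinearMap _
    rw [h _ (hφ.off q hq)]
  rw [h1.extDeriv_eq]
  exact h'.closed U φ hφ p hp

theorem tamesOff_congr {S : Set X} {w w' : Form (ES d) X 2} {J : End (ES d) X}
    (h : ∀ x, x ∉ S → w x = w' x) (h' : TamesOff S w' J) : TamesOff S w J := by
  obtain ⟨h1, C, h2⟩ := h'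
  refine ⟨fun x hx v hv => ?_, C, fun x hx u v => ?_⟩
  · have h3 := h1 x hx v hv
    unfold qd at h3 ⊢
    rwa [h x hx]
  · have h3 := h2 x hx u v
    unfold qd at h3 ⊢
    rwa [h x hx]

variable [IsManifold 𝓘(ℝ, ES d) ∞ X] [CompactSpace X] [T2Space X]
  [IsManifold 𝓘(ℝ, ES d) ∞ Z] [CompactSpace Z] [T2Space Z]

omit [CompactSpace X] [T2Space X] [CompactSpace Z] [T2Space Z] in
theorem exists_invOff' {f : Z → X} {S : Set X} {I : End (ES d) Z} {J : End (ES d) X}
    (hS : IsClosed S) (hS0 : PU.HNull (X := X) d S) (hf : IsModification f S I J) :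
    ∃ g : X → Z, InvOff (V := ES d) f S g := by
  have hm : IsManifold (𝓡 d) ∞ X := (inferInstance : IsManifold 𝓘(ℝ, ES d) ∞ X)
  have hcs : CompleteSpace (ES d) := (inferInstance : CompleteSpace (EuclideanSpace ℝ (Fin d)))
  rcases isEmpty_or_nonempty Z with hZ | hZ
  · have hX : IsEmpty X := by
      refine ⟨fun x => ?_⟩
      have hall : ∀ y : X, y ∈ S := by
        intro y
        by_contra hy
        obtain ⟨z, -⟩ := hf.bij y hy
        exact hZ.elim z
      have h1 := PU.CantAux.null_chart (d := d) (X := X) hS0 x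
      have h2 : chartAt (Y501.SY.E d) x '' (S ∩ (chartAt (Y501.SY.E d) x).source) =
          (chartAt (Y501.SY.E d) x).target := by
        rw [← (chartAt (Y501.SY.E d) x).image_source_eq_target]
        congr 1
        exact inter_eq_right.2 fun y _ => hall y
      rw [h2] at h1
      exact ((chartAt (Y501.SY.E d) x).open_target.measure_pos volume
        ⟨_, mem_chart_target (Y501.SY.E d) x⟩).ne' h1
    exact ⟨fun x => hX.elim x, fun x => hX.elim x, fun z => hZ.elim z, fun x => hX.elim x⟩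
  · exact exists_invOff (V := ES d) hS hf

omit [CompactSpace X] [T2Space X] [CompactSpace Z] [T2Space Z] [IsManifold 𝓘(ℝ, ES d) ∞ X]
  [IsManifold 𝓘(ℝ, ES d) ∞ Z] in
theorem pushOff_of {f : Z → X} {S : Set X} {I : End (ES d) Z} {J : End (ES d) X}
    (hf : IsModification f S I J) {g : X → Z} (hg : InvOff (V := ES d) f S g)
    {τ : Form (ES d) Z 2} {w : Form (ES d) X 2} (hw : IsPush f S τ w) :
    MD.PushOff (d := d) (X := X) (Z := Z) f S g τ w := by
  have hinv : ∀ z, f z ∉ S → (BC.Df (d := d) (X := Z) (Y := X) f z).IsInvertible := fun z hz =>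
    BCP.isInvertible_of_bijective (hf.inv z hz)
  refine ⟨hinv, hg.left, hg.right, fun z hz => ?_⟩
  ext v
  refine Eq.trans ?_ (BC.ci_apply _ _ _).symm
  have h1 := hw z hz
  have h2 : (τ z : (Y501.SY.E d) [⋀^Fin 2]→L[ℝ] ℝ)
      (fun i => (BC.Df (d := d) (X := Z) (Y := X) f z).inverse (v i)) =
      (w (f z) : (Y501.SY.E d) [⋀^Fin 2]→L[ℝ] ℝ)
        (fun i => BC.Df (d := d) (X := Z) (Y := X) f z
          ((BC.Df (d := d) (X := Z) (Y := X) f z).inverse (v i))) := by
    rw [← h1]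
    rfl
  refine Eq.trans ?_ h2.symm
  congr 1
  funext i
  exact ((hinv z hz).self_apply_inverse _).symm

omit [CompactSpace X] [T2Space X] [CompactSpace Z] [T2Space Z] [IsManifold 𝓘(ℝ, ES d) ∞ X]
  [IsManifold 𝓘(ℝ, ES d) ∞ Z] in
theorem push_eq {f : Z → X} {S : Set X} (hS : IsClosed S) {I : End (ES d) Z} {J : End (ES d) X}
    (hf : IsModification f S I J) {g : X → Z} (hg : InvOff (V := ES d) f S g)
    {τ : Form (ES d) Z 2} {w : Form (ES d) X 2} (hw : IsPush f S τ w) :
    ∀ x, x ∉ S → w x = BCP.pull g τ x := by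
  intro x hx
  have hfg : f (g x) = x := hg.right x hx
  have hz : f (g x) ∉ S := by rwa [hfg]
  have h1 := (pushOff_of hf hg hw).val (g x) hz
  rw [hfg] at h1
  have hinv : (BC.Df (d := d) (X := Z) (Y := X) f (g x)).IsInvertible :=
    BCP.isInvertible_of_bijective (hf.inv (g x) hz)
  refine ContinuousAlternatingMap.ext fun v => ?_
  have h2 : (w x : (Y501.SY.E d) [⋀^Fin 2]→L[ℝ] ℝ) v =
      (τ (g x) : (Y501.SY.E d) [⋀^Fin 2]→L[ℝ] ℝ)
        (fun i => (BC.Df (d := d) (X := Z) (Y := X) f (g x)).inverse (v i)) := by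
    rw [h1]
    exact BC.ci_apply _ _ _
  refine h2.trans ?_
  show (τ (g x) : (Y501.SY.E d) [⋀^Fin 2]→L[ℝ] ℝ) _ =
    (τ (g x) : (Y501.SY.E d) [⋀^Fin 2]→L[ℝ] ℝ)
      (fun i => (mfderiv 𝓘(ℝ, ES d) 𝓘(ℝ, ES d) g x : ES d →L[ℝ] ES d) (v i))
  congr 1
  funext i
  have h3 : BC.Df (d := d) (X := Z) (Y := X) f (g x)
      ((mfderiv 𝓘(ℝ, ES d) 𝓘(ℝ, ES d) g x : ES d →L[ℝ] ES d) (v i)) = v i :=
    hg.der_comp hS hf.smooth hx (v i)
  have h4 := hinv.inverse_apply_self
    ((mfderiv 𝓘(ℝ, ES d) 𝓘(ℝ, ES d) g x : ES d →L[ℝ] ES d) (v i))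
  rw [h3] at h4
  exact h4

end Pool.Agent.H819.MDP
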