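import Mathlib
import Pool.Agent.H819.MD.Push

/-!
# The criterion for the push-forward class
-/

set_option autoImplicit false

open Set Filter Topology MeasureTheory Metric
open scoped Manifold ContDiff ENNReal NNReal

noncomputable section

namespace Pool.Agent.H819.MDP

open Pool.Agent.Y501 (SY.E)
open Pool.Agent.Y501.SYP hiding cs smooth_iff isD_iff closed_iff
open Pool.Agent.H819.LGP Pool.Agent.H819.LNP Pool.Agent.H819.HNP
open Pool.Agent.H819.EMP Pool.Agent.H819.PUP Pool.Agent.H819.RNP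
open Pool.Agent.H819.NCP (IsSimple NumericalChain)
open Pool.Agent Pool.Agent.H819.MD

variable {d : ℕ} {X : Type} [TopologicalSpace X] [ChartedSpace (ES d) X]
  {Z : Type} [TopologicalSpace Z] [ChartedSpace (ES d) Z]
  [IsManifold 𝓘(ℝ, ES d) ∞ X] [CompactSpace X] [T2Space X]
  [IsManifold 𝓘(ℝ, ES d) ∞ Z] [CompactSpace Z] [T2Space Z]

attribute [local instance] Pool.Agent.H819.LGP.cs

/-- **The push-forward of a taming symplectic form.** -/
theorem push_result (hd : 4 ≤ d) {J : End (ES d) X} {I : End (ES d) Z} (hJ : IsAlmostComplex J)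
    (hJL : LocHolder J 1) (hI : IsAlmostComplex I) {S : Set X} (hS : IsClosed S)
    (hS0 : HausdorffNull (V := ES d) ((d : ℝ) - 3) S) {f : Z → X} (hf : IsModification f S I J)
    {τ : Form (ES d) Z 2} (hτ : IsTamingSymplectic τ I) {w : Form (ES d) X 2}
    (hw : IsPush f S τ w) :
    (∃ σ₀ : Form (ES d) X 2, IsSmooth σ₀ ∧ IsClosedForm σ₀ ∧ Represents (leb d) σ₀ w) ∧
    ∀ σ₀ : Form (ES d) X 2, IsSmooth σ₀ → IsClosedForm σ₀ → Represents (leb d) σ₀ w →
      ChainCovers S σ₀ J → TamedIn σ₀ J := by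
  have hmX : IsManifold (𝓡 d) ∞ X := (inferInstance : IsManifold 𝓘(ℝ, ES d) ∞ X)
  have hmZ : IsManifold (𝓡 d) ∞ Z := (inferInstance : IsManifold 𝓘(ℝ, ES d) ∞ Z)
  have hH := hnull_of (X := X) (by omega) hS0
  obtain ⟨g, hg⟩ := exists_invOff' hS hH hf
  have hpo := pushOff_of hf hg hw
  have heq := push_eq hS hf hg hw
  have hcl : ClosedOff S w := closedOff_congr heq
    (hg.closedOff (closedOff_of hτ.smooth hτ.closed _))
  have hto : TamesOff S w J := tamesOff_congr heq (hg.tamesOff hS hf (tamesOff_of hI hτ _))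
  obtain ⟨c1, c2⟩ := (closedOff_iff S w).1 hcl
  have ht1 := (tamesOff_iff S w J).1 hto
  constructor
  · obtain ⟨σ₀, h1, h2, h3⟩ := MD.push_class (d := d) (X := X) (Z := Z) (by omega) hf.smooth hS hH
      ((smooth_iff τ).1 hτ.smooth) hpo c1 c2
    exact ⟨σ₀, (smooth_iff σ₀).2 h1, (closed_iff σ₀).2 h2, (rep_iff σ₀ w).2 h3⟩
  · rintro σ₀ h1 h2 h3 ⟨S₀, g1, g2, g3, n, C, g4, g5⟩
    rw [tamed_iff]
    exact MD.push_tamed (d := d) (X := X) (Z := Z) (by omega) hf.smooth hS hH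
      (cont_of hI) hJ.sq (cont_of hJ) ((holder_iff J 1).1 hJL) hf.hol
      ((smooth_iff τ).1 hτ.smooth) (fun z v hv => hτ.tames z v hv) hpo c1 ht1
      ((smooth_iff σ₀).1 h1) ((closed_iff σ₀).1 h2) ((rep_iff σ₀ w).1 h3) g1 g2 g3
      (NCP.chain_of g4) g5

/-- a tamed class is positive on the closed curves -/
theorem positive_of_tamed {J : End (ES d) X} {σ₀ : Form (ES d) X 2} (h : TamedIn σ₀ J)
    (S : Set X) : PositiveOnCurves S σ₀ J := by
  intro C _ _ _ _ _ j u P hj hu _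
  have e : (comb (fun _ => 0) 1 σ₀ : Form (ES d) X 2) = σ₀ := by
    funext x
    show (0 : (TangentSpace 𝓘(ℝ, ES d) x) [⋀^Fin 2]→L[ℝ] ℝ) + (1 : ℝ) • σ₀ x = σ₀ x
    rw [one_smul, zero_add]
  have h1 := curve_class (d := d) (m := 0) (X := X) (Y := ES 0) (J := J) (f := fun _ => (0 : ES 0)) contMDiff_const
    (σ := fun _ => 0) (ζ := σ₀) (fun x v _ w => rfl) one_pos (by rw [e]; exact h)
  exact h1 C inferInstance inferInstance inferInstance inferInstance inferInstance j u P 0 hj hu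
    fun _ => rfl

omit [CompactSpace X] in
/-- curves give chains -/
theorem chainCovers_of_curve {J : End (ES d) X} (hJs : SmoothEnd J)
    {σ₀ : Form (ES d) X 2} {S : Set X} (hF : IsCurve J S) (h : PositiveOnCurves S σ₀ J) :
    ChainCovers S σ₀ J := by
  obtain ⟨C, t, c, m, k, t2, j, u, P, hj, hu, hr, h0⟩ := hF
  have hT := h C t c m k t2 j u P hj hu hr
  have hcl : IsClosed (range u ∪ P) :=
    (isCompact_range hu.smooth.continuous).isClosed.union hu.finite.isClosed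
  refine ⟨∅, isClosed_empty, isTotallyDisconnected_empty, fun p hp => hp.elim, 0,
    fun _ => range u ∪ P, ⟨⟨fun p _ => hJs p, C, t, c, m, k, t2, j, u, P, hj, hu, rfl, hT⟩,
    fun _ _ => hcl, fun _ _ => Subset.rfl, fun i hi => absurd hi (Nat.not_lt_zero i)⟩, ?_⟩
  have h1 : H819.HN.HN (d := d) (X := X) 2 {x | x ∈ S ∧ x ∉ range u} := h0
  exact H819.HN.HN.mono (d := d) h1 fun x hx => ⟨hx.1, fun h3 => hx.2.2 (Or.inl h3)⟩

/-- small sets are covered by the empty chain -/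
theorem chainCovers_of_small {J : End (ES d) X} {σ₀ : Form (ES d) X 2} {S : Set X}
    (hS : IsClosed S) (h : Small S J) : ChainCovers S σ₀ J := by
  rcases h with h | ⟨h1, h2⟩
  · refine ⟨∅, isClosed_empty, isTotallyDisconnected_empty, fun p hp => hp.elim, 0, fun _ => ∅,
      empty_chain σ₀ J, ?_⟩
    have h3 : H819.HN.HN (d := d) (X := X) 2 S := h
    exact H819.HN.HN.mono (d := d) h3 fun x hx => hx.1
  · refine ⟨S, hS, h1, h2, 0, fun _ => ∅, empty_chain σ₀ J, ?_⟩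
    intro x₀
    have h3 : {x | x ∈ S ∧ x ∉ S ∧ x ∉ (∅ : Set X)} = ∅ := by
      refine eq_empty_of_forall_notMem ?_
      rintro x ⟨g1, g2, -⟩
      exact g2 g1
    rw [h3, empty_inter, image_empty, measure_empty]

/-- the push-forward of a form -/
theorem exists_push {S : Set X} {I : End (ES d) Z} {J : End (ES d) X} (hS : IsClosed S)
    (hd : 4 ≤ d) (hS0 : HausdorffNull (V := ES d) ((d : ℝ) - 3) S) {f : Z → X}
    (hf : IsModification f S I J) (τ : Form (ES d) Z 2) :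
    ∃ w : Form (ES d) X 2, IsPush f S τ w := by
  obtain ⟨g, hg⟩ := exists_invOff' hS (hnull_of (X := X) (by omega) hS0) hf
  refine ⟨BCP.pull g τ, fun z hz => ?_⟩
  refine ContinuousAlternatingMap.ext fun v => ?_
  have hgz : g (f z) = z := hg.left z hz
  have hb := (hf.inv z hz).1
  have h1 : ∀ a : ES d, (mfderiv 𝓘(ℝ, ES d) 𝓘(ℝ, ES d) g (f z) : ES d →L[ℝ] ES d)
      ((mfderiv 𝓘(ℝ, ES d) 𝓘(ℝ, ES d) f z : ES d →L[ℝ] ES d) a) = a := by
    intro a
    refine hb ?_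
    have h2 := hg.der_comp hS hf.smooth hz
      ((mfderiv 𝓘(ℝ, ES d) 𝓘(ℝ, ES d) f z : ES d →L[ℝ] ES d) a)
    rw [hgz] at h2
    exact h2
  have h3 : (τ (g (f z)) : (ES d) [⋀^Fin 2]→L[ℝ] ℝ) = τ z := by rw [hgz]
  show (τ (g (f z)) : (ES d) [⋀^Fin 2]→L[ℝ] ℝ) (fun i =>
    (mfderiv 𝓘(ℝ, ES d) 𝓘(ℝ, ES d) g (f z) : ES d →L[ℝ] ES d)
      ((mfderiv 𝓘(ℝ, ES d) 𝓘(ℝ, ES d) f z : ES d →L[ℝ] ES d) (v i))) =
    (τ z : (ES d) [⋀^Fin 2]→L[ℝ] ℝ) v
  rw [h3]
  congr 1
  funext i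
  exact h1 (v i)

end Pool.Agent.H819.MDP
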