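import Mathlib
import Pool.Agent.H819.MD.Push2

/-!
# Modifications: the final statements
-/

set_option autoImplicit false

open Set Filter Topology MeasureTheory Metric
open scoped Manifold ContDiff ENNReal NNReal

noncomputable section

namespace Pool.Agent.H819.MDP

open Pool.Agent.Y501 (SY.E)
open Pool.Agent.Y501.SYP hiding cs smooth_iff isD_iff closed_iff
open Pool.Agent.H819.LGP Pool.Agent.H819.LNP Pool.Agent.H819.HNP
open Pool.Agent.H819.EMP Pool.Agent.H819.PUP Pool.Agent.H819.RNP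
open Pool.Agent.H819.NCP (IsSimple NumericalChain)
open Pool.Agent Pool.Agent.H819.MD

variable {d : ℕ} {X : Type} [TopologicalSpace X] [ChartedSpace (ES d) X]
  {Z : Type} [TopologicalSpace Z] [ChartedSpace (ES d) Z]
  [IsManifold 𝓘(ℝ, ES d) ∞ X] [CompactSpace X] [T2Space X]
  [IsManifold 𝓘(ℝ, ES d) ∞ Z] [CompactSpace Z] [T2Space Z]

attribute [local instance] Pool.Agent.H819.LGP.cs

/-- **From below to above.** -/
theorem lift_all {J : End (ES d) X} {I : End (ES d) Z} (hI : IsAlmostComplex I)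
    (hI1 : LocHolder I 1) {S : Set X} {f : Z → X} (hf : IsModification f S I J)
    {σ : Form (ES d) X 2} (hσ : IsTamingSymplectic σ J) :
    (∀ ζ, GoodOver f S σ I ζ → TamedNear (BCP.pull f σ) ζ I) ∧
    ((∃ τ : Form (ES d) Z 2, IsTamingSymplectic τ I) ↔ ∃ ζ, GoodOver f S σ I ζ) ∧
    (SmoothEnd I → (∀ s ∈ S, IsCurve I (f ⁻¹' {s})) →
      ((∃ τ : Form (ES d) Z 2, IsTamingSymplectic τ I) ↔
        ∃ ζ : Form (ES d) Z 2, IsSmooth ζ ∧ IsClosedForm ζ ∧ PositiveOnFibres f ζ I)) := by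
  have key : ∀ ζ, GoodOver f S σ I ζ → TamedNear (BCP.pull f σ) ζ I := fun ζ hζ =>
    lift hI hI1 hf hσ hζ
  have back : (∃ ζ, GoodOver f S σ I ζ) → ∃ τ : Form (ES d) Z 2, IsTamingSymplectic τ I := by
    rintro ⟨ζ, hζ⟩
    obtain ⟨t₀, ht₀, h⟩ := key ζ hζ
    obtain ⟨w, hw, -⟩ := h t₀ ht₀ le_rfl
    exact ⟨w, hw⟩
  refine ⟨key, ⟨?_, back⟩, fun hIs hF => ⟨?_, ?_⟩⟩
  · rintro ⟨τ, hτ⟩
    have hs := semi hf hσ
    exact ⟨τ, hτ.smooth, hτ.closed, fun s _ =>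
      good_of_tamed hs.smooth hs.closed one_pos (taming_add hf hσ hτ) _⟩
  · rintro ⟨τ, hτ⟩
    exact ⟨τ, hτ.smooth, hτ.closed, fun S _ _ _ _ _ j u P y hj hu _ => curve_tamed hτ hj hu⟩
  · rintro ⟨ζ, h1, h2, h3⟩
    exact back ⟨ζ, h1, h2, fun s hs => curve_good hI hIs h1 h2 (hF s hs) h3⟩

/-- a tamed class is positive along the strata -/
theorem numerical_of_tamed {J : End (ES d) X} {σ₀ : Form (ES d) X 2} (h : TamedIn σ₀ J) {n : ℕ}
    {C : ℕ → Set X} (hC : StrataChain J n C) : NumericalChain σ₀ J n C := by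
  have hm : IsManifold (𝓡 d) ∞ X := (inferInstance : IsManifold 𝓘(ℝ, ES d) ∞ X)
  have h' := h
  obtain ⟨σ, hσ, β, hβ, hD⟩ := h'
  refine ⟨⟨hC.smooth, ?_⟩, hC.closed, hC.mono, fun i hi =>
    ⟨σ, ⟨hσ.smooth, hσ.closed, β, hβ, hD⟩, ?_⟩⟩
  · obtain ⟨S, t, c, m, k, t2, j, u, P, hj, hu, hP⟩ := hC.curve
    exact ⟨S, t, c, m, k, t2, j, u, P, hj, hu, hP,
      positive_of_tamed h univ S t c m k t2 j u P hj hu (subset_univ _)⟩
  · intro p hp hpB
    obtain ⟨k, g, h1, h2⟩ := hC.strata i hi p hp hpB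
    refine ⟨k, g, h1, ?_⟩
    filter_upwards [h2, (chartAt (ES d) p).open_target.mem_nhds (mem_chart_target (ES d) p)]
      with z hz hzt
    refine ⟨hz.1, hz.2.1, hz.2.2.1, fun h0 u hu => ⟨hz.2.2.2 h0 u hu, fun hu0 => ?_⟩⟩
    have e1 : ev2 (loc p σ z) u (op J p z u) =
        qd σ J ((chartAt (ES d) p).symm z) (Y455.SY.A (d := d) (X := X) p z u) :=
      H819.RN.exists_vl (d := d) (X := X) σ J p hzt u
    rw [e1]
    refine hσ.tames _ _ fun h3 => hu0 ?_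
    have h4 := Y455.SY.BA (d := d) (X := X) p hzt u
    have h5 : (Y455.SY.A (d := d) (X := X) p z u : Y501.SY.E d) = 0 := h3
    rw [h5, map_zero] at h4
    exact h4.symm

/-- **From above to below.** -/
theorem push_all (hd : 4 ≤ d) {J : End (ES d) X} {I : End (ES d) Z} (hJ : IsAlmostComplex J)
    (hJL : LocHolder J 1) (hI : IsAlmostComplex I) {S : Set X} (hS : IsClosed S)
    (hS0 : HausdorffNull (V := ES d) ((d : ℝ) - 3) S) {f : Z → X} (hf : IsModification f S I J)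
    {τ : Form (ES d) Z 2} (hτ : IsTamingSymplectic τ I) :
    (∃ σ₀, PushClass (leb d) f S τ σ₀) ∧
    ∀ σ₀, PushClass (leb d) f S τ σ₀ →
      (Small S J → TamedIn σ₀ J) ∧
      (∀ (n : ℕ) (C : ℕ → Set X), CoveredBy S J n C →
        (TamedIn σ₀ J ↔ NumericalChain σ₀ J n C)) ∧
      (SmoothEnd J → IsCurve J S → (TamedIn σ₀ J ↔ PositiveOnCurves S σ₀ J)) := by
  constructor
  · obtain ⟨w, hw⟩ := exists_push hS hd hS0 hf τ
    obtain ⟨σ₀, h1, h2, h3⟩ := (push_result hd hJ hJL hI hS hS0 hf hτ hw).1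
    exact ⟨σ₀, h1, h2, w, hw, h3⟩
  · rintro σ₀ ⟨h1, h2, w, hw, h3⟩
    have key := (push_result hd hJ hJL hI hS hS0 hf hτ hw).2 σ₀ h1 h2 h3
    refine ⟨fun h => key (chainCovers_of_small hS h), fun n C hC => ⟨fun h =>
      numerical_of_tamed h hC.1, fun h => ?_⟩, fun hJs hc => ⟨fun h => positive_of_tamed h S,
      fun h => key (chainCovers_of_curve hJs hc h)⟩⟩
    obtain ⟨-, S₀, g1, g2, g3, g4⟩ := hC
    exact key ⟨S₀, g1, g2, g3, n, C, h, g4⟩

end Pool.Agent.H819.MDP
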